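import Pool.Agent.Run7.h153.NS.Exp
set_option autoImplicit false

/-!
The regulators of the classes on the complex curve.
-/

namespace Pool.Agent.Run7.h153.NS

open Polynomial

open Pool.Agent.TH826.MK

section pull

variable {A B : Type*} [CommRing A] [CommRing B] {d : ℕ}

/-- The image of a torus. -/
def pullT (ψ : B →+* A) (Γ : Torus A d) : Torus B d where
  e θ := (Γ.e θ).comp ψ
  smooth h := Γ.smooth (ψ h)
  periodic θ i := by rw [Γ.periodic]

theorem reg_pull (ψ : B →+* A) (Γ : Torus A 1) (u w : Bˣ) : (pullT ψ Γ).reg (s2 u w) =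
    Γ.reg (s2 (Units.map (ψ : B →* A) u) (Units.map (ψ : B →* A) w)) := by
  unfold s2
  rw [Torus.reg_symb, Torus.reg_symb]
  unfold Torus.pair
  congr 1
  funext l θ
  fin_cases l <;> rfl

end pull

section split

variable {r : Fin 2 → ℕ} {lam : ℂ} {a : ∀ k, Fin (r k + 1) → ℂ}

/-- Loops such that no combination of the symbols with vanishing row and column sums has vanishing
regulators. -/
theorem exists_loops' (hl0 : lam ≠ 0) (hinj : ∀ k, Function.Injective (a k))
    (hcrit : ∀ ξ η : ℂ, (derivative (pl (a 0))).eval ξ = 0 → (derivative (pl (a 1))).eval η = 0 →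
      1 < ‖lam * (pl (a 0)).eval ξ * (pl (a 1)).eval η‖) :
    ∃ Γ : (∀ k, Fin (r k)) → Torus (Crv lam (pl (a 0)) (pl (a 1))) 1,
      (∀ t θ (c : ℂ), (Γ t).e θ (cc lam _ _ c) = c) ∧
      ∀ m : Fin (r 0 + 1) → Fin (r 1 + 1) → ℝ, (∀ j, ∑ i, m i j = 0) → (∀ i, ∑ j, m i j = 0) →
        (∀ t, ∑ i, ∑ j, m i j * (Γ t).reg (s2 (ux lam (a 0) (a 1) i) (uy lam (a 0) (a 1) j)) = 0) →
        ∀ i j, m i j = 0 := by
  obtain ⟨Γ, h1, h2⟩ := Pool.Agent.N686.DI.exists_tori (σ := RingHom.id ℂ) hl0 hinj (by
    intro ξ η hξ hη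
    have h3 := hcrit ξ η hξ hη
    unfold pl at h3
    rw [eval_prod, eval_prod] at h3
    simpa using h3)
  refine ⟨fun t => pullT (psi lam a) (Γ t), fun t θ c => ?_, fun m hm1 hm2 hm => ?_⟩
  · have h3 := h1 t θ c
    rw [RingHom.id_apply] at h3
    show (Γ t).e θ (psi lam a (toC lam _ _ (MvPolynomial.C c))) = c
    rw [psi_toC, h3]
  · obtain ⟨V, hV⟩ := abel2 m hm1 hm2
    have e1 : ∀ t i j, (pullT (psi lam a) (Γ t)).reg (s2 (ux lam (a 0) (a 1) i)
        (uy lam (a 0) (a 1) j)) = (Γ t).reg (s2 (Pool.Agent.TH826.MH.ux lam a 0 i)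
          (Pool.Agent.TH826.MH.ux lam a 1 j)) := by
      intro t i j
      rw [reg_pull]
      congr 2
      · apply Units.ext
        show psi lam a (fx lam _ _ (X - C (a 0 i))) = _
        unfold fx
        rw [psi_toC, Pool.Agent.TH826.MH.coe_ux]
        unfold Pool.Agent.TH826.MH.fx
        congr 1
        simp [MvPolynomial.algebraMap_eq]
      · apply Units.ext
        show psi lam a (fy lam _ _ (X - C (a 1 j))) = _
        unfold fy
        rw [psi_toC, Pool.Agent.TH826.MH.coe_ux]
        unfold Pool.Agent.TH826.MH.fx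
        congr 1
        simp [MvPolynomial.algebraMap_eq]
    simp only [e1] at hm
    -- the symbols of the library
    have e2 : ∀ t (i : ∀ k, Fin (r k)), (Γ t).reg (symb (Pool.Agent.TH826.MH.ent lam a i)) =
        (Γ t).reg (s2 (Pool.Agent.TH826.MH.ux lam a 0 (i 0).castSucc)
          (Pool.Agent.TH826.MH.ux lam a 1 (i 1).castSucc)) -
        (Γ t).reg (s2 (Pool.Agent.TH826.MH.ux lam a 0 (i 0).castSucc)
          (Pool.Agent.TH826.MH.ux lam a 1 (i 1).succ)) -
        (Γ t).reg (s2 (Pool.Agent.TH826.MH.ux lam a 0 (i 0).succ)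
          (Pool.Agent.TH826.MH.ux lam a 1 (i 1).castSucc)) +
        (Γ t).reg (s2 (Pool.Agent.TH826.MH.ux lam a 0 (i 0).succ)
          (Pool.Agent.TH826.MH.ux lam a 1 (i 1).succ)) := by
      intro t i
      have e3 : symb (Pool.Agent.TH826.MH.ent lam a i) =
          s2 (Pool.Agent.TH826.MH.ux lam a 0 (i 0).castSucc /
            Pool.Agent.TH826.MH.ux lam a 0 (i 0).succ)
            (Pool.Agent.TH826.MH.ux lam a 1 (i 1).castSucc /
              Pool.Agent.TH826.MH.ux lam a 1 (i 1).succ) := by
        unfold s2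
        congr 1
        funext k
        fin_cases k <;> rfl
      rw [e3, s2_div_left, s2_div_right, s2_div_right, map_sub, map_sub, map_sub]
      ring
    have hV0 : (fun i : (∀ k, Fin (r k)) => V (i 0) (i 1)) = 0 := by
      by_contra hne
      refine h2 (Matrix.exists_mulVec_eq_zero_iff.1 ⟨_, hne, ?_⟩)
      funext t
      have h3 := hm t
      rw [hV] at h3
      rw [Matrix.mulVec, dotProduct, Pi.zero_apply, ← h3,
        ← Equiv.sum_comp (piFinTwoEquiv fun k => Fin (r k)).symm, Fintype.sum_prod_type]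
      refine Finset.sum_congr rfl fun p _ => Finset.sum_congr rfl fun q _ => ?_
      rw [Matrix.of_apply, e2, mul_comm]
      rfl
    intro i j
    classical
    have h3 := hV fun i' j' => if i' = i ∧ j' = j then 1 else 0
    have h4 : ∀ p q, V p q = 0 := by
      intro p q
      exact congrFun hV0 ((piFinTwoEquiv fun k => Fin (r k)).symm (p, q))
    simp only [h4, zero_mul, Finset.sum_const_zero] at h3
    rw [Finset.sum_eq_single i, Finset.sum_eq_single j] at h3
    · simpa using h3
    · intro j' _ hj'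
      rw [if_neg fun e => hj' e.2, mul_zero]
    · intro hh
      exact absurd (Finset.mem_univ _) hh
    · intro i' _ hi'
      refine Finset.sum_eq_zero fun j' _ => ?_
      rw [if_neg fun e => hi' e.1, mul_zero]
    · intro hh
      exact absurd (Finset.mem_univ _) hh

end split

section roots

/-- the enumeration of the roots -/
theorem exists_pl {G : ℂ[X]} (hG : G.Monic) (hs : G.Separable) (hd : 0 < G.natDegree) :
    ∃ (n : ℕ) (a : Fin (n + 1) → ℂ), Function.Injective a ∧ pl a = G := by
  classical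
  have hsp : G.Splits := IsAlgClosed.splits G
  have h1 : G = (G.roots.map fun r => X - C r).prod := hsp.eq_prod_roots_of_monic hG
  have hnd : G.roots.Nodup := nodup_roots hs
  have h2 : G.roots.toFinset.card = G.natDegree := by
    rw [Multiset.toFinset_card_of_nodup hnd]
    exact hsp.natDegree_eq_card_roots.symm
  obtain ⟨n, hn⟩ : ∃ n, G.roots.toFinset.card = n + 1 := ⟨G.natDegree - 1, by omega⟩
  set e := G.roots.toFinset.equivFinOfCardEq hn with he
  refine ⟨n, fun i => (e.symm i : ℂ), fun i j hij => ?_, ?_⟩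
  · exact e.symm.injective (Subtype.ext hij)
  · unfold pl
    rw [Equiv.prod_comp e.symm fun x => X - C (x : ℂ), Finset.prod_coe_sort G.roots.toFinset
      fun x => X - C x]
    conv_rhs => rw [h1]
    show (Multiset.map (fun r => X - C r) G.roots.toFinset.val).prod = _
    rw [Multiset.toFinset_val, hnd.dedup]

/-- every root of a product of different linear factors is a root of exactly one factor -/
theorem exists_blk {n r : ℕ} {a : Fin n → ℂ} (ha : Function.Injective a) {P : Fin (r + 1) → ℂ[X]}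
    (hP : ∀ i, (P i).Monic) (hd : ∀ i, 0 < (P i).natDegree) (h : ∏ i, P i = pl a) :
    ∃ blk : Fin n → Fin (r + 1), (∀ i k, (P k).eval (a i) = 0 ↔ blk i = k) ∧
      (∀ k, ∃ i, blk i = k) ∧
      ∀ k, (P k).natDegree = (Finset.univ.filter fun i => blk i = k).card := by
  classical
  have hex : ∀ i, ∃ k, (P k).eval (a i) = 0 := by
    intro i
    have h1 : (pl a).eval (a i) = 0 := by
      unfold pl
      rw [eval_prod]
      exact Finset.prod_eq_zero (Finset.mem_univ i) (by simp)
    rw [← h, eval_prod] at h1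
    obtain ⟨k, _, hk⟩ := Finset.prod_eq_zero_iff.1 h1
    exact ⟨k, hk⟩
  choose blk hblk using hex
  have huniq : ∀ i k, (P k).eval (a i) = 0 → blk i = k := by
    intro i k hk
    by_contra hne
    have h1 : (X - C (a i)) * (X - C (a i)) ∣ pl a := by
      rw [← h, ← Finset.mul_prod_erase _ _ (Finset.mem_univ k)]
      refine mul_dvd_mul (dvd_iff_isRoot.2 hk) ?_
      refine (dvd_iff_isRoot.2 (hblk i)).trans (Finset.dvd_prod_of_mem _ ?_)
      exact Finset.mem_erase.2 ⟨hne, Finset.mem_univ _⟩
    have h2 := natDegree_eq_zero_of_isUnit (squarefree_pl ha _ h1)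
    rw [natDegree_X_sub_C] at h2
    exact one_ne_zero h2
  have hiff : ∀ i k, (P k).eval (a i) = 0 ↔ blk i = k :=
    fun i k => ⟨huniq i k, fun e => e ▸ hblk i⟩
  have hcard : ∀ k, (P k).natDegree = (Finset.univ.filter fun i => blk i = k).card := by
    intro k
    have h3 : P k ∣ pl a := h ▸ Finset.dvd_prod_of_mem _ (Finset.mem_univ k)
    have h4 := congrArg natDegree (eq_prod_filter ha (hP k) h3)
    rw [natDegree_prod_of_monic _ _ fun i _ => monic_X_sub_C _] at h4
    simp only [natDegree_X_sub_C, Finset.sum_const, smul_eq_mul, mul_one, hiff] at h4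
    exact h4
  refine ⟨blk, hiff, fun k => ?_, hcard⟩
  have h5 := hd k
  rw [hcard k, Finset.card_pos] at h5
  obtain ⟨i, hi⟩ := h5
  exact ⟨i, (Finset.mem_filter.1 hi).2⟩

end roots

end Pool.Agent.Run7.h153.NS
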