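import Pool.Agent.Run7.h153.NS.Ring
set_option autoImplicit false

/-!
The classes on the curve `λ P(x) Q(y) = 1`, and their images in the Milnor K-theory of fields.
-/

namespace Pool.Agent.Run7.h153.NS

open scoped WithZero

open Polynomial

open Pool.Agent.TH826.MK

section un

variable {M : Type*} [Field M]

open scoped Classical in
/-- The unit `z`, for `z ≠ 0`. -/
noncomputable def un (z : M) : Mˣ := if h : z = 0 then 1 else Units.mk0 z h

theorem coe_un {z : M} (h : z ≠ 0) : (un z : M) = z := by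
  unfold un
  rw [dif_neg h]
  rfl

theorem un_eq {z : M} {u : Mˣ} (h : (u : M) = z) : un z = u := by
  apply Units.ext
  rw [coe_un (h ▸ u.ne_zero), h]

end un

section classes

variable {K : Type*} [Field K] {lam : K} {P Q : K[X]} {M : Type*} [Field M]
  (f : Crv lam P Q →+* M)

/-- The class `{F(h(x)) / F(k(y)), h(x) - k(y)} - (1 / deg F) {F(h(x)), F(k(y))}`. -/
noncomputable def diagClass (F h k : K[X]) : KQ M 2 :=
  bt F.natDegree (un (f (fx lam P Q (F.comp h)))) (un (f (fy lam P Q (F.comp k))))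
    (un (f (fx lam P Q h - fy lam P Q k)))

/-- The class `{P₁(x) ^ e₀ / P₀(x) ^ e₁, Q₁(y) ^ d₀ / Q₀(y) ^ d₁}`, with the degrees `e_i` of the
`P_i` and `d_j` of the `Q_j`. -/
noncomputable def prodClass (P₀ P₁ Q₀ Q₁ : K[X]) : KQ M 2 :=
  s2 (un (f (fx lam P Q P₁)) ^ P₀.natDegree / un (f (fx lam P Q P₀)) ^ P₁.natDegree)
    (un (f (fy lam P Q Q₁)) ^ Q₀.natDegree / un (f (fy lam P Q Q₀)) ^ Q₁.natDegree)

/-- the image of `x` -/
noncomputable def xM : M := f (fx lam P Q X)

/-- the image of `y` -/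
noncomputable def yM : M := f (fy lam P Q X)

/-- the constants -/
noncomputable def cM : K →+* M := f.comp (cc lam P Q)

theorem f_fx (G : K[X]) : f (fx lam P Q G) = (G.map (cM f)).eval (xM f) := by
  unfold fx xM cM cc fx
  rw [aeval_def, hom_eval₂, hom_eval₂, eval_map, aeval_X]
  congr 1

theorem f_fy (G : K[X]) : f (fy lam P Q G) = (G.map (cM f)).eval (yM f) := by
  unfold fy yM cM cc fy
  rw [aeval_def, hom_eval₂, hom_eval₂, eval_map, aeval_X]
  congr 1

theorem f_fx_ne {G : K[X]} (h : G ∣ P) : f (fx lam P Q G) ≠ 0 :=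
  ((isUnit_fx lam P Q h).map f).ne_zero

theorem f_fy_ne {G : K[X]} (h : G ∣ Q) : f (fy lam P Q G) ≠ 0 :=
  ((isUnit_fy lam P Q h).map f).ne_zero

end classes

section unram

variable {K : Type*} [Field K] {lam : K} {P Q : K[X]} {M : Type*} [Field M]
  (f : Crv lam P Q →+* M) (v : Valuation M ℤᵐ⁰)

/-- A monic polynomial with integral coefficients. -/
def MonicInt (G : K[X]) : Prop := G.Monic ∧ ∀ n, IsIntegral ℤ (G.coeff n)

theorem val_cM {c : K} (hc : IsIntegral ℤ c) : v (cM f c) ≤ 1 :=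
  val_le_one_of_integral v (map_isIntegral_int _ hc)

theorem val_coeff {G : K[X]} (hG : MonicInt G) (n : ℕ) : v ((G.map (cM f)).coeff n) ≤ 1 := by
  rw [coeff_map]
  exact val_cM f v (hG.2 n)

theorem val_fx_le {G : K[X]} (hG : MonicInt G) (hx : v (xM f) ≤ 1) : v (f (fx lam P Q G)) ≤ 1 := by
  rw [f_fx]
  exact val_poly_le v (val_coeff f v hG) hx

theorem val_fy_le {G : K[X]} (hG : MonicInt G) (hx : v (yM f) ≤ 1) : v (f (fy lam P Q G)) ≤ 1 := by
  rw [f_fy]
  exact val_poly_le v (val_coeff f v hG) hx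

/-- a monic polynomial at a nonintegral point -/
theorem val_eval_of_lt {G : M[X]} (hG : G.Monic) (hc : ∀ n, v (G.coeff n) ≤ 1) {z : M}
    (hz : 1 < v z) : v (G.eval z) = v z ^ G.natDegree := by
  have h1 := val_poly_sub v hG hc hz
  have h2 := val_one_of_sub_one h1
  have hz0 : z ≠ 0 := by
    rintro rfl
    rw [map_zero] at hz
    exact not_lt_zero hz
  rw [map_div₀, map_pow, div_eq_one_iff_eq (pow_ne_zero _ ((Valuation.ne_zero_iff v).2 hz0))] at h2
  exact h2

theorem le_of_val_eval_le {G : M[X]} (hG : G.Monic) (hc : ∀ n, v (G.coeff n) ≤ 1)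
    (hd : 0 < G.natDegree) {z : M} (hz : v (G.eval z) ≤ 1) : v z ≤ 1 := by
  by_contra hcon
  rw [not_le] at hcon
  rw [val_eval_of_lt v hG hc hcon] at hz
  exact absurd hz (not_le.2 (one_lt_pow₀ hcon hd.ne'))

/-- At a valuation where `x` and `y` are integral the factors are units. -/
theorem val_factors (hlam : IsIntegral ℤ lam) (hP : MonicInt P) (hQ : MonicInt Q)
    (hx : v (xM f) ≤ 1) (hy : v (yM f) ≤ 1) :
    (∀ G H : K[X], G * H = P → MonicInt G → MonicInt H → v (f (fx lam P Q G)) = 1) ∧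
    ∀ G H : K[X], G * H = Q → MonicInt G → MonicInt H → v (f (fy lam P Q G)) = 1 := by
  have hone := congrArg (fun z => v (f z)) (prod_eq_one lam P Q)
  simp only [map_mul, map_one] at hone
  have h1 : v (f (cc lam P Q lam)) ≤ 1 := val_cM f v hlam
  have h2 := val_fx_le f v hP hx
  have h3 := val_fy_le f v hQ hy
  have hPx : v (f (fx lam P Q P)) = 1 := by
    refine le_antisymm h2 ?_
    rw [← hone]
    calc v (f (cc lam P Q lam)) * (v (f (fx lam P Q P)) * v (f (fy lam P Q Q)))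
        ≤ 1 * (v (f (fx lam P Q P)) * 1) := mul_le_mul' h1 (mul_le_mul' le_rfl h3)
      _ = v (f (fx lam P Q P)) := by rw [one_mul, mul_one]
  have hQy : v (f (fy lam P Q Q)) = 1 := by
    refine le_antisymm h3 ?_
    rw [← hone]
    calc v (f (cc lam P Q lam)) * (v (f (fx lam P Q P)) * v (f (fy lam P Q Q)))
        ≤ 1 * (1 * v (f (fy lam P Q Q))) := mul_le_mul' h1 (mul_le_mul' h2 le_rfl)
      _ = v (f (fy lam P Q Q)) := by rw [one_mul, one_mul]
  have haux : ∀ a b : ℤᵐ⁰, a ≤ 1 → b ≤ 1 → a * b = 1 → a = 1 := by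
    intro a b ha hb hab
    refine le_antisymm ha ?_
    rw [← hab]
    exact mul_le_of_le_one_right' hb
  refine ⟨fun G H hGH hG hH => ?_, fun G H hGH hG hH => ?_⟩
  · refine haux _ (v (f (fx lam P Q H))) (val_fx_le f v hG hx) (val_fx_le f v hH hx) ?_
    rw [← map_mul, ← map_mul, ← fx_mul, hGH, hPx]
  · refine haux _ (v (f (fy lam P Q H))) (val_fy_le f v hG hy) (val_fy_le f v hH hy) ?_
    rw [← map_mul, ← map_mul, ← fy_mul, hGH, hQy]

/-- **The class of `F`, `h`, `k` is unramified.** -/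
theorem diagClass_mem (hlam : IsIntegral ℤ lam) (hP : MonicInt P) (hQ : MonicInt Q)
    {F h k : K[X]} (hF : MonicInt F) (hh : MonicInt h) (hk : MonicInt k) (hFd : 0 < F.natDegree)
    (hhd : 0 < h.natDegree) (hkd : 0 < k.natDegree) {G H : K[X]} (hG : F.comp h * G = P)
    (hH : F.comp k * H = Q) (hGi : MonicInt G) (hHi : MonicInt H) (hFh : MonicInt (F.comp h))
    (hFk : MonicInt (F.comp k)) (hne : f (fx lam P Q h - fy lam P Q k) ≠ 0) :
    diagClass f F h k ∈ unitPart v 2 := by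
  have hm : (F.map (cM f)).natDegree = F.natDegree := natDegree_map _
  unfold diagClass
  rw [← hm]
  have e1 : f (fx lam P Q (F.comp h)) = (F.map (cM f)).eval (f (fx lam P Q h)) := by
    rw [f_fx, f_fx, map_comp, eval_comp]
  have e2 : f (fy lam P Q (F.comp k)) = (F.map (cM f)).eval (f (fy lam P Q k)) := by
    rw [f_fy, f_fy, map_comp, eval_comp]
  refine bt_mem v (F := F.map (cM f)) (hF.1.map _) (by rw [hm]; exact hFd) (val_coeff f v hF)
    (u := f (fx lam P Q h)) (w := f (fy lam P Q k)) ?_ ?_ ?_ ?_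
  · rw [coe_un (f_fx_ne f ⟨G, hG.symm⟩), e1]
  · rw [coe_un (f_fy_ne f ⟨H, hH.symm⟩), e2]
  · rw [coe_un hne, map_sub]
  · intro hu hw
    have hx : v (xM f) ≤ 1 := by
      rw [f_fx] at hu
      exact le_of_val_eval_le v (hh.1.map _) (val_coeff f v hh) (by rwa [natDegree_map]) hu
    have hy : v (yM f) ≤ 1 := by
      rw [f_fy] at hw
      exact le_of_val_eval_le v (hk.1.map _) (val_coeff f v hk) (by rwa [natDegree_map]) hw
    obtain ⟨h1, h2⟩ := val_factors f v hlam hP hQ hx hy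
    rw [← e1, ← e2]
    exact ⟨h1 _ _ hG hFh hGi, h2 _ _ hH hFk hHi⟩

/-- the quotient of powers is a one-unit at a nonintegral point -/
theorem quot_oneUnit {G H : M[X]} (hG : G.Monic) (hH : H.Monic) (hGc : ∀ n, v (G.coeff n) ≤ 1)
    (hHc : ∀ n, v (H.coeff n) ≤ 1) {z : M} (hz : 1 < v z) {a b : Mˣ} (ha : (a : M) = G.eval z)
    (hb : (b : M) = H.eval z) :
    v (((a ^ H.natDegree / b ^ G.natDegree : Mˣ) : M) - 1) < 1 := by
  have hz0 : z ≠ 0 := by
    rintro rfl
    rw [map_zero] at hz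
    exact not_lt_zero hz
  -- one-units
  have hpow : ∀ {t : M} (n : ℕ), v (t - 1) < 1 → v (t ^ n - 1) < 1 := by
    intro t n ht
    have ht1 : v t = 1 := val_one_of_sub_one ht
    have e : t ^ n - 1 = (t - 1) * ∑ i ∈ Finset.range n, t ^ i := by
      rw [mul_comm, geom_sum_mul]
    rw [e, map_mul]
    calc v (t - 1) * v (∑ i ∈ Finset.range n, t ^ i) ≤ v (t - 1) * 1 := by
          refine mul_le_mul' le_rfl (Valuation.map_sum_le v fun i _ => ?_)
          rw [map_pow, ht1, one_pow]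
      _ < 1 := by rwa [mul_one]
  have h1 := hpow H.natDegree (val_poly_sub v hG hGc hz)
  have h2 := hpow G.natDegree (val_poly_sub v hH hHc hz)
  set s := (G.eval z / z ^ G.natDegree) ^ H.natDegree with hs
  set t := (H.eval z / z ^ H.natDegree) ^ G.natDegree with ht
  have ht1 : v t = 1 := val_one_of_sub_one h2
  have ht0 : t ≠ 0 := by
    intro h0
    rw [h0, map_zero] at ht1
    exact zero_ne_one ht1
  have e : ((a ^ H.natDegree / b ^ G.natDegree : Mˣ) : M) = s / t := by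
    rw [Units.val_div_eq_div_val, Units.val_pow_eq_pow_val, Units.val_pow_eq_pow_val, ha, hb, hs,
      ht, div_pow, div_pow, ← pow_mul, ← pow_mul, mul_comm G.natDegree H.natDegree]
    have : z ^ (H.natDegree * G.natDegree) ≠ 0 := pow_ne_zero _ hz0
    field_simp
  rw [e, div_sub_one ht0, map_div₀, ht1, div_one]
  have e2 : s - t = (s - 1) - (t - 1) := by ring
  rw [e2]
  exact (v.map_sub _ _).trans_lt (max_lt h1 h2)

/-- **The product classes are unramified.** -/
theorem prodClass_mem (hlam : IsIntegral ℤ lam) (hP : MonicInt P) (hQ : MonicInt Q)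
    {P₀ P₁ Q₀ Q₁ : K[X]} (hP₀ : MonicInt P₀) (hP₁ : MonicInt P₁) (hQ₀ : MonicInt Q₀)
    (hQ₁ : MonicInt Q₁) (h0 : ∃ H, P₀ * H = P ∧ MonicInt H) (h1 : ∃ H, P₁ * H = P ∧ MonicInt H)
    (h2 : ∃ H, Q₀ * H = Q ∧ MonicInt H) (h3 : ∃ H, Q₁ * H = Q ∧ MonicInt H) :
    prodClass f P₀ P₁ Q₀ Q₁ ∈ unitPart v 2 := by
  obtain ⟨H0, h0, h0'⟩ := h0
  obtain ⟨H1, h1, h1'⟩ := h1
  obtain ⟨H2, h2, h2'⟩ := h2
  obtain ⟨H3, h3, h3'⟩ := h3
  have n0 := f_fx_ne (lam := lam) (Q := Q) f ⟨H0, h0.symm⟩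
  have n1 := f_fx_ne (lam := lam) (Q := Q) f ⟨H1, h1.symm⟩
  have n2 := f_fy_ne (lam := lam) (P := P) f ⟨H2, h2.symm⟩
  have n3 := f_fy_ne (lam := lam) (P := P) f ⟨H3, h3.symm⟩
  unfold prodClass
  rcases le_or_gt (v (xM f)) 1 with hx | hx
  · rcases le_or_gt (v (yM f)) 1 with hy | hy
    · obtain ⟨k1, k2⟩ := val_factors f v hlam hP hQ hx hy
      refine mem_of_units v ?_ ?_
      · rw [Units.val_div_eq_div_val, Units.val_pow_eq_pow_val, Units.val_pow_eq_pow_val, coe_un n0,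
          coe_un n1, map_div₀, map_pow, map_pow, k1 _ _ h0 hP₀ h0', k1 _ _ h1 hP₁ h1', one_pow,
          one_pow, div_one]
      · rw [Units.val_div_eq_div_val, Units.val_pow_eq_pow_val, Units.val_pow_eq_pow_val, coe_un n2,
          coe_un n3, map_div₀, map_pow, map_pow, k2 _ _ h2 hQ₀ h2', k2 _ _ h3 hQ₁ h3', one_pow,
          one_pow, div_one]
    · refine mem_of_right v _ ?_
      have h := quot_oneUnit v (hQ₁.1.map (cM f)) (hQ₀.1.map (cM f)) (val_coeff f v hQ₁)
        (val_coeff f v hQ₀) hy (a := un (f (fy lam P Q Q₁))) (b := un (f (fy lam P Q Q₀)))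
        (by rw [coe_un n3, f_fy]) (by rw [coe_un n2, f_fy])
      rwa [natDegree_map, natDegree_map] at h
  · refine mem_of_left v _ ?_
    have h := quot_oneUnit v (hP₁.1.map (cM f)) (hP₀.1.map (cM f)) (val_coeff f v hP₁)
      (val_coeff f v hP₀) hx (a := un (f (fx lam P Q P₁))) (b := un (f (fx lam P Q P₀)))
      (by rw [coe_un n1, f_fx]) (by rw [coe_un n0, f_fx])
    rwa [natDegree_map, natDegree_map] at h

end unram

end Pool.Agent.Run7.h153.NS
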