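import Pool.Agent.Run7.h153.NS.Main
set_option autoImplicit false

/-!
The main theorem, with all data spelled out.
-/

namespace Pool.Agent.Run7.h153.NS

open Polynomial

open Pool.Agent.TH826.MK (KQ Unramified Torus)


/-- The main theorem. -/
theorem main_core.{u, v, w} (K : Type u) [Field K] [NumberField K] (σ : K →+* ℂ) (lam : K)
    (hl0 : lam ≠ 0) (hlam : IsIntegral ℤ lam) (r r' N : ℕ) (P : Fin (r + 1) → K[X])
    (Q : Fin (r' + 1) → K[X]) (hP : ∀ i, MonicInt (P i) ∧ 0 < (P i).natDegree)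
    (hQ : ∀ j, MonicInt (Q j) ∧ 0 < (Q j).natDegree) (hPs : Squarefree (∏ i, P i))
    (hQs : Squarefree (∏ j, Q j))
    (hcrit : ∀ ξ η : ℂ, (derivative (∏ i, P i)).eval₂ σ ξ = 0 →
      (derivative (∏ j, Q j)).eval₂ σ η = 0 →
      1 < ‖σ lam * (∏ i, P i).eval₂ σ ξ * (∏ j, Q j).eval₂ σ η‖)
    (S : Fin N → Fin (r + 1) × Fin (r' + 1)) (hS : Function.Injective S) (F h k : Fin N → K[X])
    (hF : ∀ s, MonicInt (F s) ∧ MonicInt (h s) ∧ MonicInt (k s) ∧ 2 ≤ (F s).natDegree ∧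
      (F s).comp (h s) = P (S s).1 ∧ (F s).comp (k s) = Q (S s).2) :
    IsDomain (Crv lam (∏ i, P i) (∏ j, Q j)) ∧
    (∀ x : Fin 2 → ℂ, MvPolynomial.eval₂ σ x (eqn lam (∏ i, P i) (∏ j, Q j)) = 0 →
      ∃ l, MvPolynomial.eval₂ σ x (MvPolynomial.pderiv l (eqn lam (∏ i, P i) (∏ j, Q j))) ≠ 0) ∧
    (∀ s, fx lam (∏ i, P i) (∏ j, Q j) (h s) - fy lam (∏ i, P i) (∏ j, Q j) (k s) ≠ 0) ∧
    (∀ (M : Type v) [Field M] (f : Crv lam (∏ i, P i) (∏ j, Q j) →+* M),
      (∀ s, f (fx lam (∏ i, P i) (∏ j, Q j) (h s) - fy lam (∏ i, P i) (∏ j, Q j) (k s)) ≠ 0 →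
        diagClass f (F s) (h s) (k s) ∈ Unramified M 2) ∧
      ∀ pq : Fin r × Fin r',
        prodClass f (P 0) (P pq.1.succ) (Q 0) (Q pq.2.succ) ∈ Unramified M 2) ∧
    ∃ (b : Fin N → KQ (Crv (σ lam) ((∏ i, P i).map σ) ((∏ j, Q j).map σ)) 2)
      (b' : Fin r × Fin r' → KQ (Crv (σ lam) ((∏ i, P i).map σ) ((∏ j, Q j).map σ)) 2),
      (∀ (M : Type w) [Field M] (g : Crv (σ lam) ((∏ i, P i).map σ) ((∏ j, Q j).map σ) →+* M),
        (∀ s, g (bc σ lam (∏ i, P i) (∏ j, Q j) (fx lam (∏ i, P i) (∏ j, Q j) (h s) -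
            fy lam (∏ i, P i) (∏ j, Q j) (k s))) ≠ 0 →
          KQ.map 2 g (b s) =
            diagClass (g.comp (bc σ lam (∏ i, P i) (∏ j, Q j))) (F s) (h s) (k s)) ∧
        ∀ pq : Fin r × Fin r', KQ.map 2 g (b' pq) =
          prodClass (g.comp (bc σ lam (∏ i, P i) (∏ j, Q j))) (P 0) (P pq.1.succ) (Q 0)
            (Q pq.2.succ)) ∧
      ∃ (n : ℕ) (Γ : Fin n → Torus (Crv (σ lam) ((∏ i, P i).map σ) ((∏ j, Q j).map σ)) 1),
        (∀ t θ (c : ℂ), (Γ t).e θ (cc (σ lam) ((∏ i, P i).map σ) ((∏ j, Q j).map σ) c) = c) ∧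
        LinearIndependent ℝ (fun (s : Fin N ⊕ (Fin r × Fin r')) (t : Fin n) =>
          (Γ t).reg (Sum.elim b b' s)) := by
  classical
  set PP := ∏ i, P i with hPP
  set QQ := ∏ j, Q j with hQQ
  have iP : MonicInt PP := monicInt_prod _ fun i _ => (hP i).1
  have iQ : MonicInt QQ := monicInt_prod _ fun i _ => (hQ i).1
  have dPP : 0 < PP.natDegree := by
    rw [hPP, natDegree_prod_of_monic _ _ fun i _ => (hP i).1.1]
    exact Finset.sum_pos (fun i _ => (hP i).2) Finset.univ_nonempty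
  have dQQ : 0 < QQ.natDegree := by
    rw [hQQ, natDegree_prod_of_monic _ _ fun i _ => (hQ i).1.1]
    exact Finset.sum_pos (fun i _ => (hQ i).2) Finset.univ_nonempty
  have sP : (PP.map σ).Separable := (PerfectField.separable_iff_squarefree.2 hPs).map
  have sQ : (QQ.map σ).Separable := (PerfectField.separable_iff_squarefree.2 hQs).map
  have mP : (PP.map σ).Monic := iP.1.map σ
  have mQ : (QQ.map σ).Monic := iQ.1.map σ
  have dP : 0 < (PP.map σ).natDegree := by rwa [natDegree_map]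
  have dQ : 0 < (QQ.map σ).natDegree := by rwa [natDegree_map]
  have hl0' : σ lam ≠ 0 := (map_ne_zero σ).2 hl0
  have hcr : ∀ ξ η : ℂ, (derivative (PP.map σ)).eval ξ = 0 →
      (derivative (QQ.map σ)).eval η = 0 →
      1 < ‖σ lam * (PP.map σ).eval ξ * (QQ.map σ).eval η‖ := by
    intro ξ η hξ hη
    rw [derivative_map, eval_map] at hξ hη
    rw [eval_map, eval_map]
    exact hcrit ξ η hξ hη
  have hdeg : ∀ s, 0 < (h s).natDegree ∧ 0 < (k s).natDegree ∧
      (h s).natDegree < PP.natDegree := by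
    intro s
    obtain ⟨-, -, -, f4, f5, f6⟩ := hF s
    have e1 := (hP (S s).1).2
    have e2 := (hQ (S s).2).2
    have e3 : (P (S s).1).natDegree ≤ PP.natDegree := by
      rw [hPP, natDegree_prod_of_monic _ _ fun i _ => (hP i).1.1]
      exact Finset.single_le_sum (f := fun i => (P i).natDegree) (fun i _ => Nat.zero_le _)
        (Finset.mem_univ _)
    rw [← f5, natDegree_comp] at e1 e3
    rw [← f6, natDegree_comp] at e2
    have a1 : 0 < (h s).natDegree := Nat.pos_of_ne_zero fun h0 => by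
      rw [h0, mul_zero] at e1
      exact absurd e1 (lt_irrefl _)
    have a2 : 0 < (k s).natDegree := Nat.pos_of_ne_zero fun h0 => by
      rw [h0, mul_zero] at e2
      exact absurd e2 (lt_irrefl _)
    refine ⟨a1, a2, ?_⟩
    nlinarith
  -- the cofactors
  have cof : ∀ i, ∃ H, P i * H = PP ∧ MonicInt H := fun i =>
    ⟨∏ j ∈ Finset.univ.erase i, P j, Finset.mul_prod_erase _ _ (Finset.mem_univ i),
      monicInt_prod _ fun j _ => (hP j).1⟩
  have cof' : ∀ i, ∃ H, Q i * H = QQ ∧ MonicInt H := fun i =>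
    ⟨∏ j ∈ Finset.univ.erase i, Q j, Finset.mul_prod_erase _ _ (Finset.mem_univ i),
      monicInt_prod _ fun j _ => (hQ j).1⟩
  refine ⟨?_, ?_, fun s => ?_, fun M _ f => ⟨fun s hs => ?_, fun pq => ?_⟩, ?_⟩
  · refine isDomain_of_irreducible (irreducible_of_map σ ?_)
    rw [map_eqn]
    exact irreducible_cx hl0' mP mQ sP sQ dP dQ
  · intro x hx
    have e : ∀ p : MvPolynomial (Fin 2) K, MvPolynomial.eval₂ σ x p =
        MvPolynomial.eval x (MvPolynomial.map σ p) := fun p => by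
      rw [MvPolynomial.eval_map]
    obtain ⟨l, hl⟩ := smooth_cx mP mQ sP sQ dP dQ hcr x (by rw [← map_eqn, ← e]; exact hx)
    refine ⟨l, ?_⟩
    rw [e, ← MvPolynomial.pderiv_map, map_eqn]
    exact hl
  · exact fx_sub_fy_ne hl0 iQ.1 (hF s).2.1.1 (hdeg s).1 (hdeg s).2.2
  · unfold Unramified
    simp only [Submodule.mem_iInf]
    intro v _
    obtain ⟨f1, f2, f3, f4, f5, f6⟩ := hF s
    obtain ⟨H, hH, hHi⟩ := cof (S s).1
    obtain ⟨H', hH', hHi'⟩ := cof' (S s).2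
    exact diagClass_mem f v hlam iP iQ f1 f2 f3 (by omega) (hdeg s).1 (hdeg s).2.1
      (G := H) (H := H') (by rw [f5, hH]) (by rw [f6, hH']) hHi hHi'
      (monicInt_comp f1 f2 (hdeg s).1) (monicInt_comp f1 f3 (hdeg s).2.1) hs
  · unfold Unramified
    simp only [Submodule.mem_iInf]
    intro v _
    exact prodClass_mem f v hlam iP iQ (hP _).1 (hP _).1 (hQ _).1 (hQ _).1 (cof _) (cof _)
      (cof' _) (cof' _)
  · obtain ⟨b, b', h1, n, Γ, h2, h3⟩ := main_cx.{w} (r := r) (r' := r') (N := N) hl0'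
      (PP := PP.map σ) (QQ := QQ.map σ) (P := fun i => (P i).map σ) (Q := fun i => (Q i).map σ)
      (by rw [hPP, Polynomial.map_prod]) (by rw [hQQ, Polynomial.map_prod])
      (fun i => (hP i).1.1.map σ) (fun i => by rw [natDegree_map]; exact (hP i).2)
      (fun i => (hQ i).1.1.map σ) (fun i => by rw [natDegree_map]; exact (hQ i).2) sP sQ hcr S hS
      (fun s => (F s).map σ) (fun s => (h s).map σ) (fun s => (k s).map σ) (fun s => by
        obtain ⟨f1, f2, f3, f4, f5, f6⟩ := hF s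
        refine ⟨f1.1.map σ, by rw [natDegree_map]; exact f4, f2.1.map σ, f3.1.map σ, ?_, ?_⟩
        · rw [← map_comp, f5]
        · rw [← map_comp, f6])
    refine ⟨b, b', fun M _ g => ⟨fun s hs => ?_, fun pq => ?_⟩, n, Γ, h2, h3⟩
    · rw [diagClass_comp]
      refine (h1 M g).1 s ?_
      rwa [map_sub, bc_fx, bc_fy] at hs
    · rw [prodClass_comp]
      exact (h1 M g).2 pq

end Pool.Agent.Run7.h153.NS
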