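import Pool.Agent.Run7.h153.NS.Reg
set_option autoImplicit false

/-!
The independence of the regulators of the classes of the curve over the ground field.
-/

namespace Pool.Agent.Run7.h153.NS

open Polynomial

open Pool.Agent.TH826.MK

/-- the vectors `a` and `b` as one family -/
theorem exists_fam {PP QQ : ℂ[X]} (mP : PP.Monic) (mQ : QQ.Monic) (sP : PP.Separable)
    (sQ : QQ.Separable) (dP : 0 < PP.natDegree) (dQ : 0 < QQ.natDegree) :
    ∃ (r : Fin 2 → ℕ) (a : ∀ k, Fin (r k + 1) → ℂ), (∀ k, Function.Injective (a k)) ∧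
      pl (a 0) = PP ∧ pl (a 1) = QQ := by
  obtain ⟨n, a, ha, haP⟩ := exists_pl mP sP dP
  obtain ⟨n', b, hb, hbQ⟩ := exists_pl mQ sQ dQ
  refine ⟨![n, n'], Fin.cons a (Fin.cons b finZeroElim), fun k => ?_, haP, hbQ⟩
  refine Fin.cases ?_ (fun k => ?_) k
  · exact ha
  · obtain rfl : k = 0 := Subsingleton.elim _ _
    exact hb

theorem reg_sum_smul {A : Type*} [CommRing A] (Γ : Torus A 1) {ι ι' : Type*} [Fintype ι]
    [Fintype ι'] (m : ι → ι' → ℚ) (z : ι → ι' → KQ A 2) :
    Γ.reg (∑ i, ∑ j, m i j • z i j) = ∑ i, ∑ j, (m i j : ℝ) * Γ.reg (z i j) := by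
  rw [map_sum]
  refine Finset.sum_congr rfl fun i _ => ?_
  rw [map_sum]
  refine Finset.sum_congr rfl fun j _ => ?_
  rw [map_smul, Rat.smul_def]

universe w

open scoped Classical in
theorem main_cx {r r' N : ℕ} {lam : ℂ} (hl0 : lam ≠ 0) {PP QQ : ℂ[X]} {P : Fin (r + 1) → ℂ[X]}
    {Q : Fin (r' + 1) → ℂ[X]} (hPP : ∏ i, P i = PP) (hQQ : ∏ j, Q j = QQ)
    (hP : ∀ i, (P i).Monic) (hPd : ∀ i, 0 < (P i).natDegree) (hQ : ∀ i, (Q i).Monic)
    (hQd : ∀ i, 0 < (Q i).natDegree) (sP : PP.Separable) (sQ : QQ.Separable)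
    (hcrit : ∀ ξ η : ℂ, (derivative PP).eval ξ = 0 → (derivative QQ).eval η = 0 →
      1 < ‖lam * PP.eval ξ * QQ.eval η‖) (S : Fin N → Fin (r + 1) × Fin (r' + 1))
    (hS : Function.Injective S) (F h k : Fin N → ℂ[X])
    (hF : ∀ s, (F s).Monic ∧ 2 ≤ (F s).natDegree ∧ (h s).Monic ∧ (k s).Monic ∧
      (F s).comp (h s) = P (S s).1 ∧ (F s).comp (k s) = Q (S s).2) :
    ∃ (b : Fin N → KQ (Crv lam PP QQ) 2) (b' : Fin r × Fin r' → KQ (Crv lam PP QQ) 2),
      (∀ (M : Type w) [Field M] (g : Crv lam PP QQ →+* M),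
        (∀ s, g (fx lam PP QQ (h s) - fy lam PP QQ (k s)) ≠ 0 →
          KQ.map 2 g (b s) = diagClass g (F s) (h s) (k s)) ∧
        ∀ pq : Fin r × Fin r', KQ.map 2 g (b' pq) =
          prodClass g (P 0) (P pq.1.succ) (Q 0) (Q pq.2.succ)) ∧
      ∃ (n : ℕ) (Γ : Fin n → Torus (Crv lam PP QQ) 1),
        (∀ t θ (c : ℂ), (Γ t).e θ (cc lam PP QQ c) = c) ∧
        LinearIndependent ℝ (fun (s : Fin N ⊕ (Fin r × Fin r')) (t : Fin n) =>
          (Γ t).reg (Sum.elim b b' s)) := by
  have mP : PP.Monic := hPP ▸ monic_prod_of_monic _ _ fun i _ => hP i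
  have mQ : QQ.Monic := hQQ ▸ monic_prod_of_monic _ _ fun i _ => hQ i
  have dP : 0 < PP.natDegree := by
    rw [← hPP, natDegree_prod_of_monic _ _ fun i _ => hP i]
    exact Finset.sum_pos (fun i _ => hPd i) Finset.univ_nonempty
  have dQ : 0 < QQ.natDegree := by
    rw [← hQQ, natDegree_prod_of_monic _ _ fun i _ => hQ i]
    exact Finset.sum_pos (fun i _ => hQd i) Finset.univ_nonempty
  obtain ⟨ρ, a, ha, h0, h1⟩ := exists_fam mP mQ sP sQ dP dQ
  subst h0 h1
  obtain ⟨blk0, b01, b02, b03⟩ := exists_blk (ha 0) hP hPd hPP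
  obtain ⟨blk1, b11, b12, b13⟩ := exists_blk (ha 1) hQ hQd hQQ
  have dvP : ∀ i, P i ∣ pl (a 0) := fun i => hPP ▸ Finset.dvd_prod_of_mem _ (Finset.mem_univ i)
  have dvQ : ∀ i, Q i ∣ pl (a 1) := fun i => hQQ ▸ Finset.dvd_prod_of_mem _ (Finset.mem_univ i)
  have hhd : ∀ s, 0 < (h s).natDegree := by
    intro s
    have e := hPd (S s).1
    rw [← (hF s).2.2.2.2.1, natDegree_comp] at e
    rcases Nat.eq_zero_or_pos (h s).natDegree with h0 | h0
    · rw [h0, mul_zero] at e
      exact absurd e (lt_irrefl _)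
    · exact h0
  have hkd : ∀ s, 0 < (k s).natDegree := by
    intro s
    have e := hQd (S s).2
    rw [← (hF s).2.2.2.2.2, natDegree_comp] at e
    rcases Nat.eq_zero_or_pos (k s).natDegree with h0 | h0
    · rw [h0, mul_zero] at e
      exact absurd e (lt_irrefl _)
    · exact h0
  have dvF : ∀ s, (F s).comp (h s) ∣ pl (a 0) := fun s => (hF s).2.2.2.2.1 ▸ dvP _
  have dvF' : ∀ s, (F s).comp (k s) ∣ pl (a 1) := fun s => (hF s).2.2.2.2.2 ▸ dvQ _
  set e0 : Fin (r + 1) → ℕ := fun i => (P i).natDegree with he0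
  set e1 : Fin (r' + 1) → ℕ := fun i => (Q i).natDegree with he1
  refine ⟨fun s => bD lam (a 0) (a 1) (F s) (h s) (k s), fun pq => bP lam (a 0) (a 1)
    (avec blk0 e0 pq.1) (avec blk1 e1 pq.2), fun M _ g => ⟨fun s hs => ?_, fun pq => ?_⟩, ?_⟩
  · exact map_bD g (ha 0) (ha 1) (hF s).1 (hF s).2.2.1 (hF s).2.2.2.1 (hhd s) (hkd s) (dvF s)
      (dvF' s) hs
  · refine map_bP g (ha 0) (ha 1) (hP _) (hP _) (hQ _) (hQ _) (dvP _) (dvP _) (dvQ _) (dvQ _) _ _
      (fun i => ?_) fun i => ?_
    · unfold avec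
      simp only [b01, he0]
    · unfold avec
      simp only [b11, he1]
  · obtain ⟨Γ, hΓ1, hΓ2⟩ := exists_loops' hl0 ha hcrit
    set e := Fintype.equivFin (∀ k, Fin (ρ k)) with he
    refine ⟨_, fun t => Γ (e.symm t), fun t => hΓ1 _, ?_⟩
    rw [Fintype.linearIndependent_iff]
    intro t ht
    set m : Fin N → Fin (ρ 0 + 1) → Fin (ρ 1 + 1) → ℝ := fun s i j =>
      (mat (F s).roots.toFinset (F s).natDegree (fun i => (h s).eval (a 0 i))
        (fun j => (k s).eval (a 1 j)) i j : ℝ) with hm
    set τ : Fin r × Fin r' → ℝ := fun pq => t (Sum.inr pq) with hτ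
    -- the total matrix
    set tot : Fin (ρ 0 + 1) → Fin (ρ 1 + 1) → ℝ := fun i j =>
      (∑ s, t (Sum.inl s) * m s i j) + ∑ pq : Fin r × Fin r',
        τ pq * ((avec blk0 e0 pq.1 i : ℝ) * (avec blk1 e1 pq.2 j : ℝ)) with htot
    have hR : ∀ s i, (h s).eval (a 0 i) ∈ (F s).roots.toFinset ↔ blk0 i = (S s).1 := by
      intro s i
      rw [Multiset.mem_toFinset, mem_roots (hF s).1.ne_zero, IsRoot.def, ← eval_comp,
        (hF s).2.2.2.2.1, b01]
    have hR' : ∀ s j, (k s).eval (a 1 j) ∈ (F s).roots.toFinset ↔ blk1 j = (S s).2 := by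
      intro s j
      rw [Multiset.mem_toFinset, mem_roots (hF s).1.ne_zero, IsRoot.def, ← eval_comp,
        (hF s).2.2.2.2.2, b11]
    have hd0 : ∀ s, ((F s).natDegree : ℝ) ≠ 0 := fun s => by
      have := (hF s).2.1
      exact_mod_cast (by omega : (F s).natDegree ≠ 0)
    -- the sums of the matrices
    have hmrow : ∀ s i, ∑ j, m s i j = 0 := by
      intro s i
      obtain ⟨c1, c2⟩ := card_fibre (ha 1) (hF s).1 (hF s).2.2.2.1 (hkd s) (dvF' s)
      by_cases hi : (h s).eval (a 0 i) ∈ (F s).roots.toFinset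
      · have e2 : ∀ j, m s i j = (if (k s).eval (a 1 j) = (h s).eval (a 0 i) then (1 : ℝ) else 0) -
            (1 / ((F s).natDegree : ℝ)) * (if (k s).eval (a 1 j) ∈ (F s).roots.toFinset then
              (1 : ℝ) else 0) := by
          intro j
          simp only [hm]
          unfold mat
          by_cases hj : (k s).eval (a 1 j) ∈ (F s).roots.toFinset
          · rw [if_pos ⟨hi, hj⟩, if_pos hj]
            by_cases hij : (h s).eval (a 0 i) = (k s).eval (a 1 j)
            · rw [if_pos hij, if_pos hij.symm]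
              push_cast
              ring
            · rw [if_neg hij, if_neg (Ne.symm hij)]
              push_cast
              ring
          · rw [if_neg fun e => hj e.2, if_neg hj, if_neg fun e => hj (by rw [e]; exact hi)]
            push_cast
            ring
        simp only [e2]
        rw [Finset.sum_sub_distrib, ← Finset.mul_sum, Finset.sum_boole, Finset.sum_boole, c2,
          c1 _ hi]
        have := hd0 s
        push_cast
        field_simp
        ring
      · refine Finset.sum_eq_zero fun j _ => ?_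
        simp only [hm]
        unfold mat
        rw [if_neg fun e => hi e.1, Rat.cast_zero]
    have hmcol : ∀ s j, ∑ i, m s i j = 0 := by
      intro s j
      obtain ⟨c1, c2⟩ := card_fibre (ha 0) (hF s).1 (hF s).2.2.1 (hhd s) (dvF s)
      by_cases hj : (k s).eval (a 1 j) ∈ (F s).roots.toFinset
      · have e2 : ∀ i, m s i j = (if (h s).eval (a 0 i) = (k s).eval (a 1 j) then (1 : ℝ) else 0) -
            (1 / ((F s).natDegree : ℝ)) * (if (h s).eval (a 0 i) ∈ (F s).roots.toFinset then
              (1 : ℝ) else 0) := by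
          intro i
          simp only [hm]
          unfold mat
          by_cases hi : (h s).eval (a 0 i) ∈ (F s).roots.toFinset
          · rw [if_pos ⟨hi, hj⟩, if_pos hi]
            by_cases hij : (h s).eval (a 0 i) = (k s).eval (a 1 j)
            · rw [if_pos hij, if_pos hij]
              push_cast
              ring
            · rw [if_neg hij, if_neg hij]
              push_cast
              ring
          · rw [if_neg fun e => hi e.1, if_neg hi, if_neg fun e => hi (by rw [e]; exact hj)]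
            push_cast
            ring
        simp only [e2]
        rw [Finset.sum_sub_distrib, ← Finset.mul_sum, Finset.sum_boole, Finset.sum_boole, c2,
          c1 _ hj]
        have := hd0 s
        push_cast
        field_simp
        ring
      · refine Finset.sum_eq_zero fun i _ => ?_
        simp only [hm]
        unfold mat
        rw [if_neg fun e => hj e.2, Rat.cast_zero]
    have hav0 : ∀ p : Fin r, ∑ i, (avec blk0 e0 p i : ℝ) = 0 := fun p => by
      have := sum_avec blk0 e0 b03 p
      exact_mod_cast this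
    have hav1 : ∀ p : Fin r', ∑ i, (avec blk1 e1 p i : ℝ) = 0 := fun p => by
      have := sum_avec blk1 e1 b13 p
      exact_mod_cast this
    have htot0 : ∀ i j, tot i j = 0 := by
      refine hΓ2 tot (fun j => ?_) (fun i => ?_) fun u => ?_
      · simp only [htot]
        rw [Finset.sum_add_distrib, Finset.sum_comm, Finset.sum_comm (γ := Fin (ρ 0 + 1))]
        simp only [← Finset.mul_sum, hmcol, mul_zero, Finset.sum_const_zero, ← Finset.sum_mul,
          hav0, zero_mul, add_zero]
      · simp only [htot]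
        rw [Finset.sum_add_distrib, Finset.sum_comm, Finset.sum_comm (γ := Fin (ρ 1 + 1))]
        simp only [← Finset.mul_sum, hmrow, mul_zero, Finset.sum_const_zero, 
          hav1, add_zero]
      · have h2 := congrFun ht (e u)
        simp only [Finset.sum_apply, Pi.smul_apply, smul_eq_mul, Pi.zero_apply, e.symm_apply_apply,
          Fintype.sum_sum_type, Sum.elim_inl, Sum.elim_inr] at h2
        have e2 : ∀ s, (Γ u).reg (bD lam (a 0) (a 1) (F s) (h s) (k s)) = ∑ i, ∑ j, m s i j *
            (Γ u).reg (s2 (ux lam (a 0) (a 1) i) (uy lam (a 0) (a 1) j)) := fun s => by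
          unfold bD
          rw [reg_sum_smul]
        have e3 : ∀ pq : Fin r × Fin r', (Γ u).reg (bP lam (a 0) (a 1) (avec blk0 e0 pq.1)
            (avec blk1 e1 pq.2)) = ∑ i, ∑ j, ((avec blk0 e0 pq.1 i : ℝ) *
              (avec blk1 e1 pq.2 j : ℝ)) *
            (Γ u).reg (s2 (ux lam (a 0) (a 1) i) (uy lam (a 0) (a 1) j)) := fun pq => by
          unfold bP
          rw [reg_sum_smul]
          push_cast
          rfl
        simp only [e2, e3] at h2
        rw [← h2]
        simp only [htot, add_mul, Finset.sum_add_distrib, Finset.sum_mul, Finset.mul_sum]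
        congr 1
        · have e4 : ∀ i, ∑ j, ∑ s, t (Sum.inl s) * m s i j *
              (Γ u).reg (s2 (ux lam (a 0) (a 1) i) (uy lam (a 0) (a 1) j)) =
              ∑ s, ∑ j, t (Sum.inl s) * (m s i j *
              (Γ u).reg (s2 (ux lam (a 0) (a 1) i) (uy lam (a 0) (a 1) j))) := fun i => by
            rw [Finset.sum_comm]
            simp only [mul_assoc]
          simp only [e4]
          rw [Finset.sum_comm]
        · have e4 : ∀ i, ∑ j, ∑ pq : Fin r × Fin r', τ pq * ((avec blk0 e0 pq.1 i : ℝ) *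
              (avec blk1 e1 pq.2 j : ℝ)) *
              (Γ u).reg (s2 (ux lam (a 0) (a 1) i) (uy lam (a 0) (a 1) j)) =
              ∑ pq : Fin r × Fin r', ∑ j, τ pq * ((avec blk0 e0 pq.1 i : ℝ) *
              (avec blk1 e1 pq.2 j : ℝ) *
              (Γ u).reg (s2 (ux lam (a 0) (a 1) i) (uy lam (a 0) (a 1) j))) := fun i => by
            rw [Finset.sum_comm]
            simp only [mul_assoc]
          simp only [e4]
          rw [Finset.sum_comm]
    have hfin := indep blk0 blk1 e0 e1 hPd hQd b02 b12 S hS m (fun s i j hij => by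
        simp only [hm]
        unfold mat
        rw [if_neg, Rat.cast_zero]
        rintro ⟨k1, k2⟩
        exact hij ⟨(hR s i).1 k1, (hR' s j).1 k2⟩) (fun s => by
        obtain ⟨c1, -⟩ := card_fibre (ha 1) (hF s).1 (hF s).2.2.2.1 (hkd s) (dvF' s)
        obtain ⟨c3, -⟩ := card_fibre (ha 0) (hF s).1 (hF s).2.2.1 (hhd s) (dvF s)
        obtain ⟨-, hcard, -⟩ := eq_prod_roots (ha 0) (hF s).1 (hF s).2.2.1 (hhd s) (dvF s)
        obtain ⟨c, hc, c', hc', hcc⟩ := Finset.one_lt_card.1 (by
          rw [hcard]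
          have := (hF s).2.1
          omega)
        obtain ⟨i, hi⟩ := Finset.card_pos.1 (by rw [c3 c hc]; exact hhd s)
        obtain ⟨j, hj⟩ := Finset.card_pos.1 (by rw [c1 c hc]; exact hkd s)
        obtain ⟨j', hj'⟩ := Finset.card_pos.1 (by rw [c1 c' hc']; exact hkd s)
        have hi := (Finset.mem_filter.1 hi).2
        have hj := (Finset.mem_filter.1 hj).2
        have hj' := (Finset.mem_filter.1 hj').2
        have q0 : (h s).eval (a 0 i) ∈ (F s).roots.toFinset := by rw [hi]; exact hc
        have q1 : (k s).eval (a 1 j) ∈ (F s).roots.toFinset := by rw [hj]; exact hc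
        have q2 : (k s).eval (a 1 j') ∈ (F s).roots.toFinset := by rw [hj']; exact hc'
        refine ⟨i, j, j', (hR s i).1 q0, (hR' s j).1 q1, (hR' s j').1 q2, ?_⟩
        have m1 : m s i j = 1 - 1 / ((F s).natDegree : ℝ) := by
          simp only [hm]
          unfold mat
          rw [if_pos ⟨q0, q1⟩, if_pos (hi.trans hj.symm)]
          push_cast
          ring
        have m2 : m s i j' = 0 - 1 / ((F s).natDegree : ℝ) := by
          simp only [hm]
          unfold mat
          rw [if_pos ⟨q0, q2⟩, if_neg fun e => hcc (hi.symm.trans (Eq.trans e hj'))]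
          push_cast
          ring
        rw [m1, m2]
        intro hcon
        linarith) (fun s => t (Sum.inl s)) τ (fun i j => htot0 i j)
    rintro (s | pq)
    · exact congrFun hfin.1 s
    · exact congrFun hfin.2 pq

end Pool.Agent.Run7.h153.NS
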