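import Pool.Agent.Run7.h153.NS.Core
set_option autoImplicit false

/-!
The data of the theorem.
-/

namespace Pool.Agent.Run7.h153.NS

open Polynomial

open Pool.Agent.TH826.MK (KQ)

/-- A number `λ ∈ K`, polynomials `P_0, ..., P_r` and `Q_0, ..., Q_{r'}` over `K`, and `N` triples
`(F, h, k)` of polynomials over `K` with a pair `S = (i, j)` of indices for each of them. -/
structure Data (K : Type*) [Field K] where
  /-- the factor `λ` -/
  lam : K
  /-- there are `r + 1` factors `P_i` -/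
  r : ℕ
  /-- there are `r' + 1` factors `Q_j` -/
  r' : ℕ
  /-- the number of the triples `(F, h, k)` -/
  N : ℕ
  /-- the factors `P_i` -/
  P : Fin (r + 1) → K[X]
  /-- the factors `Q_j` -/
  Q : Fin (r' + 1) → K[X]
  /-- the pairs of indices -/
  S : Fin N → Fin (r + 1) × Fin (r' + 1)
  /-- the polynomials `F` -/
  F : Fin N → K[X]
  /-- the polynomials `h` -/
  h : Fin N → K[X]
  /-- the polynomials `k` -/
  k : Fin N → K[X]

namespace Data

variable {K : Type*} [Field K] (D : Data K)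

/-- The product `P = P_0 ⋯ P_r`. -/
noncomputable def PP : K[X] := ∏ i, D.P i

/-- The product `Q = Q_0 ⋯ Q_{r'}`. -/
noncomputable def QQ : K[X] := ∏ j, D.Q j

/-- The conditions on the data: `λ ≠ 0` is an algebraic integer; `P_i` and `Q_j` are monic of positive
degree, with coefficients which are algebraic integers; `P` and `Q` are squarefree;
`|σ(λ) P(ξ) Q(η)| > 1` for all complex zeros `ξ` of the derivative of `P` and `η` of the derivative of
`Q` (at `σ`); the pairs `S_s` of indices are different; `F_s`, `h_s`, `k_s` are monic with integral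
coefficients, `deg F_s ≥ 2`, and `F_s(h_s) = P_i`, `F_s(k_s) = Q_j` for `(i, j) = S_s`. -/
structure Good (σ : K →+* ℂ) : Prop where
  ne_zero : D.lam ≠ 0
  integral : IsIntegral ℤ D.lam
  monic : ∀ i, MonicInt (D.P i) ∧ 0 < (D.P i).natDegree
  monic' : ∀ j, MonicInt (D.Q j) ∧ 0 < (D.Q j).natDegree
  squarefree : Squarefree D.PP
  squarefree' : Squarefree D.QQ
  critical : ∀ ξ η : ℂ, (derivative D.PP).eval₂ σ ξ = 0 → (derivative D.QQ).eval₂ σ η = 0 →
    1 < ‖σ D.lam * D.PP.eval₂ σ ξ * D.QQ.eval₂ σ η‖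
  injective : Function.Injective D.S
  triples : ∀ s, MonicInt (D.F s) ∧ MonicInt (D.h s) ∧ MonicInt (D.k s) ∧
    2 ≤ (D.F s).natDegree ∧ (D.F s).comp (D.h s) = D.P (D.S s).1 ∧
      (D.F s).comp (D.k s) = D.Q (D.S s).2

/-- The polynomial `λ P(x) Q(y) - 1`. -/
noncomputable abbrev eq : MvPolynomial (Fin 2) K := eqn D.lam D.PP D.QQ

/-- The coordinate ring `K[x, y] / (λ P(x) Q(y) - 1)`. -/
abbrev A : Type _ := Crv D.lam D.PP D.QQ

/-- The coordinate ring `ℂ[x, y] / (σ(λ) P^σ(x) Q^σ(y) - 1)` of the complex curve at `σ`. -/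
abbrev AC (σ : K →+* ℂ) : Type _ := Crv (σ D.lam) (D.PP.map σ) (D.QQ.map σ)

/-- The base change `A → AC`. -/
noncomputable abbrev base (σ : K →+* ℂ) : D.A →+* D.AC σ := bc σ D.lam D.PP D.QQ

/-- The function `h_s(x) - k_s(y)` on the curve. -/
noncomputable abbrev diff (s : Fin D.N) : D.A :=
  fx D.lam D.PP D.QQ (D.h s) - fy D.lam D.PP D.QQ (D.k s)

/-- The classes in `K_2(M) ⊗ ℚ` for a field `M` with a homomorphism `f : A → M`. The first ones are
`{F(h(x)) / F(k(y)), h(x) - k(y)} - (1 / deg F) {F(h(x)), F(k(y))}` for the `N` triples `(F, h, k)`,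
and the others are `{P_p(x) ^ e_0 / P_0(x) ^ e_p, Q_q(y) ^ d_0 / Q_0(y) ^ d_q}`, `1 ≤ p ≤ r`,
`1 ≤ q ≤ r'`, where `e_i = deg P_i` and `d_j = deg Q_j`. -/
noncomputable def cls {M : Type*} [Field M] (f : D.A →+* M) :
    Fin D.N ⊕ (Fin D.r × Fin D.r') → KQ M 2
  | Sum.inl s => diagClass f (D.F s) (D.h s) (D.k s)
  | Sum.inr (p, q) => prodClass f (D.P 0) (D.P p.succ) (D.Q 0) (D.Q q.succ)

/-- The class with index `s` is defined if `h_s(x) ≠ k_s(y)` in `M`; the other ones always are. -/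
def Defined {M : Type*} [Field M] (f : D.A →+* M) : Fin D.N ⊕ (Fin D.r × Fin D.r') → Prop
  | Sum.inl s => f (D.diff s) ≠ 0
  | Sum.inr _ => True

end Data

end Pool.Agent.Run7.h153.NS
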