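import Mathlib
set_option autoImplicit false

/-!
Linear algebra: matrices with vanishing row and column sums.
-/

namespace Pool.Agent.Run7.h153.NS

/-- Summation by parts. -/
theorem abel1 {g : ℕ} (c : Fin (g + 1) → ℝ) (hc : ∑ i, c i = 0) :
    ∃ C : Fin g → ℝ, ∀ f : Fin (g + 1) → ℝ,
      ∑ i, c i * f i = ∑ p, C p * (f p.castSucc - f p.succ) := by
  induction g with
  | zero =>
    refine ⟨fun _ => 0, fun f => ?_⟩
    have h0 : c 0 = 0 := by simpa using hc
    simp [h0]
  | succ g ih =>
    -- move the last coefficient to the one before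
    set c' : Fin (g + 1) → ℝ := fun i => c i.castSucc + if i = Fin.last g then c (Fin.last (g + 1)) else 0
      with hc'
    have hs : ∑ i, c' i = 0 := by
      rw [hc', Finset.sum_add_distrib, Finset.sum_ite_eq' Finset.univ (Fin.last g)
        (fun _ => c (Fin.last (g + 1)))]
      rw [if_pos (Finset.mem_univ _), ← Fin.sum_univ_castSucc]
      exact hc
    obtain ⟨C, hC⟩ := ih c' hs
    refine ⟨Fin.snoc (α := fun _ => ℝ) C (-c (Fin.last (g + 1))), fun f => ?_⟩
    have h1 := hC fun i => f i.castSucc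
    have h2 : ∑ i, c' i * f i.castSucc = (∑ i : Fin (g + 1), c i.castSucc * f i.castSucc) +
        c (Fin.last (g + 1)) * f (Fin.last g).castSucc := by
      simp only [hc', add_mul, ite_mul, zero_mul]
      rw [Finset.sum_add_distrib]
      congr 1
      rw [Finset.sum_eq_single (Fin.last g)]
      · rw [if_pos rfl]
      · intro i _ hi
        rw [if_neg hi]
      · intro h
        exact absurd (Finset.mem_univ _) h
    rw [Fin.sum_univ_castSucc, Fin.sum_univ_castSucc (n := g) (f := fun p =>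
      Fin.snoc (α := fun _ => ℝ) C (-c (Fin.last (g + 1))) p * (f p.castSucc - f p.succ))]
    simp only [Fin.snoc_castSucc, Fin.snoc_last]
    have h3 : ∑ i : Fin g, C i * (f i.castSucc.castSucc - f i.castSucc.succ) =
        ∑ p : Fin g, C p * (f p.castSucc.castSucc - f p.succ.castSucc) := by
      refine Finset.sum_congr rfl fun p _ => ?_
      rw [Fin.succ_castSucc]
    rw [h3, ← h1, h2]
    have h4 : (Fin.last g).succ = Fin.last (g + 1) := Fin.succ_last g
    rw [h4]
    ring

/-- Summation by parts in two variables. -/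
theorem abel2 {g g' : ℕ} (m : Fin (g + 1) → Fin (g' + 1) → ℝ) (h1 : ∀ j, ∑ i, m i j = 0)
    (h2 : ∀ i, ∑ j, m i j = 0) :
    ∃ V : Fin g → Fin g' → ℝ, ∀ ρ : Fin (g + 1) → Fin (g' + 1) → ℝ,
      ∑ i, ∑ j, m i j * ρ i j = ∑ p, ∑ q, V p q * (ρ p.castSucc q.castSucc -
        ρ p.castSucc q.succ - ρ p.succ q.castSucc + ρ p.succ q.succ) := by
  choose C hC using fun j => abel1 (fun i => m i j) (h1 j)
  -- the row sums of `C`
  have hrow : ∀ p, ∑ j, C j p = 0 := by
    intro p
    set f : Fin (g + 1) → ℝ := fun i => if (i : ℕ) ≤ p then 1 else 0 with hf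
    have h3 : ∀ j, ∑ i, m i j * f i = C j p := by
      intro j
      rw [hC j f, Finset.sum_eq_single p]
      · simp only [hf, Fin.val_castSucc, Fin.val_succ, le_refl, if_true]
        rw [if_neg (by omega), sub_zero, mul_one]
      · intro q _ hq
        have hne : (q : ℕ) ≠ p := fun e => hq (Fin.ext e)
        simp only [hf, Fin.val_castSucc, Fin.val_succ]
        by_cases hlt : (q : ℕ) < p
        · rw [if_pos hlt.le, if_pos (by omega), sub_self, mul_zero]
        · rw [if_neg (by omega), if_neg (by omega), sub_self, mul_zero]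
      · intro h
        exact absurd (Finset.mem_univ p) h
    simp only [← h3]
    rw [Finset.sum_comm]
    refine Finset.sum_eq_zero fun i _ => ?_
    rw [← Finset.sum_mul, h2, zero_mul]
  choose V hV using fun p => abel1 (fun j => C j p) (hrow p)
  refine ⟨V, fun ρ => ?_⟩
  rw [Finset.sum_comm]
  have e1 : ∀ j, ∑ i, m i j * ρ i j = ∑ p, C j p * (ρ p.castSucc j - ρ p.succ j) := fun j =>
    hC j fun i => ρ i j
  simp only [e1]
  rw [Finset.sum_comm]
  refine Finset.sum_congr rfl fun p _ => ?_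
  rw [hV p fun j => ρ p.castSucc j - ρ p.succ j]
  refine Finset.sum_congr rfl fun q _ => ?_
  ring

section blocks

variable {I J : Type*} [Fintype I] [Fintype J] {r r' N : ℕ}

/-- The vectors of the product classes. -/
def avec {ι : Type*} {n : ℕ} (blk : ι → Fin (n + 1)) (e : Fin (n + 1) → ℕ) (p : Fin n) (i : ι) : ℚ :=
  (e 0 : ℚ) * (if blk i = p.succ then 1 else 0) - (e p.succ : ℚ) * (if blk i = 0 then 1 else 0)

theorem sum_avec {ι : Type*} [Fintype ι] {n : ℕ} (blk : ι → Fin (n + 1)) (e : Fin (n + 1) → ℕ)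
    (he : ∀ k, e k = (Finset.univ.filter fun i => blk i = k).card) (p : Fin n) :
    ∑ i, avec blk e p i = 0 := by
  unfold avec
  rw [Finset.sum_sub_distrib, ← Finset.mul_sum, ← Finset.mul_sum, Finset.sum_boole,
    Finset.sum_boole, ← he, ← he]
  ring

omit [Fintype I] [Fintype J] in
/-- The matrices of the classes are linearly independent. -/
theorem indep (b0 : I → Fin (r + 1)) (b1 : J → Fin (r' + 1)) (e0 : Fin (r + 1) → ℕ)
    (e1 : Fin (r' + 1) → ℕ) (he0 : ∀ k, 0 < e0 k) (he1 : ∀ k, 0 < e1 k)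
    (hb0 : ∀ k, ∃ i, b0 i = k) (hb1 : ∀ k, ∃ j, b1 j = k) (S : Fin N → Fin (r + 1) × Fin (r' + 1))
    (hS : Function.Injective S) (m : Fin N → I → J → ℝ)
    (hm : ∀ s i j, ¬ (b0 i = (S s).1 ∧ b1 j = (S s).2) → m s i j = 0)
    (hne : ∀ s, ∃ i j j', b0 i = (S s).1 ∧ b1 j = (S s).2 ∧ b1 j' = (S s).2 ∧
      m s i j ≠ m s i j')
    (t : Fin N → ℝ) (τ : Fin r × Fin r' → ℝ)
    (h : ∀ i j, (∑ s, t s * m s i j) + ∑ pq : Fin r × Fin r',
      τ pq * ((avec b0 e0 pq.1 i : ℝ) * (avec b1 e1 pq.2 j : ℝ)) = 0) : t = 0 ∧ τ = 0 := by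
  have ht : t = 0 := by
    funext s
    obtain ⟨i, j, j', hi, hj, hj', hd⟩ := hne s
    have h1 := h i j
    have h2 := h i j'
    have hav : ∀ q, avec b1 e1 q j = avec b1 e1 q j' := by
      intro q
      unfold avec
      rw [hj, hj']
    have hs : ∀ j, b1 j = (S s).2 → ∑ s, t s * m s i j = t s * m s i j := by
      intro j hj
      refine Finset.sum_eq_single s (fun s' _ hs' => ?_) fun hh => absurd (Finset.mem_univ _) hh
      rw [hm s' i j, mul_zero]
      rintro ⟨k1, k2⟩
      exact hs' (hS (Prod.ext (by rw [← k1, hi]) (by rw [← k2, hj])))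
    rw [hs j hj] at h1
    rw [hs j' hj'] at h2
    simp only [hav] at h1
    have h3 : t s * (m s i j - m s i j') = 0 := by linear_combination h1 - h2
    rcases mul_eq_zero.1 h3 with h4 | h4
    · exact h4
    · exact absurd (sub_eq_zero.1 h4) hd
  refine ⟨ht, ?_⟩
  subst ht
  funext pq
  obtain ⟨i, hi⟩ := hb0 pq.1.succ
  obtain ⟨j, hj⟩ := hb1 pq.2.succ
  have h1 := h i j
  simp only [Pi.zero_apply, zero_mul, Finset.sum_const_zero, zero_add] at h1
  rw [Finset.sum_eq_single pq] at h1
  · unfold avec at h1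
    rw [hi, hj, if_pos rfl, if_pos rfl, if_neg (Fin.succ_ne_zero _),
      if_neg (Fin.succ_ne_zero _)] at h1
    have k0 : (e0 0 : ℝ) ≠ 0 := by exact_mod_cast (he0 0).ne'
    have k1 : (e1 0 : ℝ) ≠ 0 := by exact_mod_cast (he1 0).ne'
    push_cast at h1
    simp only [mul_one, mul_zero, sub_zero] at h1
    rcases mul_eq_zero.1 h1 with h2 | h2
    · exact h2
    · exact absurd h2 (mul_ne_zero k0 k1)
  · intro pq' _ hpq
    have : pq'.1 ≠ pq.1 ∨ pq'.2 ≠ pq.2 := by
      by_contra hcon
      push Not at hcon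
      exact hpq (Prod.ext hcon.1 hcon.2)
    rcases this with h2 | h2
    · have : avec b0 e0 pq'.1 i = 0 := by
        unfold avec
        rw [hi, if_neg fun e => h2 (Fin.succ_injective _ e).symm, if_neg (Fin.succ_ne_zero _)]
        ring
      rw [this]
      simp
    · have : avec b1 e1 pq'.2 j = 0 := by
        unfold avec
        rw [hj, if_neg fun e => h2 (Fin.succ_injective _ e).symm, if_neg (Fin.succ_ne_zero _)]
        ring
      rw [this]
      simp
  · intro hh
    exact absurd (Finset.mem_univ _) hh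

end blocks

end Pool.Agent.Run7.h153.NS
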