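import Pool.Agent.Run7.h153.NS.Cls
import Pool.Agent.Run7.h153.NS.Lin
set_option autoImplicit false

/-!
The classes on the complex curve as combinations of the symbols `{x - a_i, y - b_j}`.
-/

namespace Pool.Agent.Run7.h153.NS

open Polynomial

open Pool.Agent.TH826.MK

section units

variable {E : Type*} [Field E] (lam : E) {n n' : ℕ} (a : Fin n → E) (b : Fin n' → E)

theorem fac_dvd {n : ℕ} (a : Fin n → E) (i : Fin n) : X - C (a i) ∣ pl a :=
  Finset.dvd_prod_of_mem _ (Finset.mem_univ i)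

/-- The unit `x - a_i`. -/
noncomputable def ux (i : Fin n) : (Crv lam (pl a) (pl b))ˣ :=
  (isUnit_fx lam (pl a) (pl b) (fac_dvd a i)).unit

/-- The unit `y - b_j`. -/
noncomputable def uy (j : Fin n') : (Crv lam (pl a) (pl b))ˣ :=
  (isUnit_fy lam (pl a) (pl b) (fac_dvd b j)).unit

theorem coe_ux (i : Fin n) : (ux lam a b i : Crv lam (pl a) (pl b)) =
    fx lam (pl a) (pl b) (X - C (a i)) := rfl

theorem coe_uy (j : Fin n') : (uy lam a b j : Crv lam (pl a) (pl b)) =
    fy lam (pl a) (pl b) (X - C (b j)) := rfl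

theorem fx_prod {ι : Type*} (P Q : E[X]) (s : Finset ι) (G : ι → E[X]) :
    fx lam P Q (∏ i ∈ s, G i) = ∏ i ∈ s, fx lam P Q (G i) := by
  unfold fx
  rw [map_prod, map_prod]

theorem fy_prod {ι : Type*} (P Q : E[X]) (s : Finset ι) (G : ι → E[X]) :
    fy lam P Q (∏ i ∈ s, G i) = ∏ i ∈ s, fy lam P Q (G i) := by
  unfold fy
  rw [map_prod, map_prod]

variable {a b} [DecidableEq E]

theorem fx_eq (ha : Function.Injective a) {G : E[X]} (hG : G.Monic) (hd : G ∣ pl a) :
    fx lam (pl a) (pl b) G = ((∏ i with G.eval (a i) = 0, ux lam a b i : (Crv lam (pl a) (pl b))ˣ) :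
      Crv lam (pl a) (pl b)) := by
  conv_lhs => rw [eq_prod_filter ha hG hd]
  rw [fx_prod, Units.coe_prod]
  rfl

theorem fy_eq (hb : Function.Injective b) {G : E[X]} (hG : G.Monic) (hd : G ∣ pl b) :
    fy lam (pl a) (pl b) G = ((∏ i with G.eval (b i) = 0, uy lam a b i : (Crv lam (pl a) (pl b))ˣ) :
      Crv lam (pl a) (pl b)) := by
  conv_lhs => rw [eq_prod_filter hb hG hd]
  rw [fy_prod, Units.coe_prod]
  rfl

end units

section poly

variable {E : Type*} [Field E] [IsAlgClosed E]

omit [IsAlgClosed E] in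
theorem squarefree_pl {n : ℕ} {a : Fin n → E} (ha : Function.Injective a) : Squarefree (pl a) := by
  have h : (pl a).Separable := separable_prod_X_sub_C_iff.2 ha
  exact h.squarefree

/-- the roots of `F`, if `F(h)` divides a product of different linear factors -/
theorem eq_prod_roots {n : ℕ} {a : Fin n → E} (ha : Function.Injective a) {F h : E[X]}
    (hF : F.Monic) (hh : h.Monic) (hhd : 0 < h.natDegree) (hd : F.comp h ∣ pl a) [DecidableEq E] :
    F = ∏ c ∈ F.roots.toFinset, (X - C c) ∧ F.roots.toFinset.card = F.natDegree ∧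
      ∀ c ∈ F.roots.toFinset, (h - C c).Monic ∧ h - C c ∣ pl a := by
  have hs : F.Splits := IsAlgClosed.splits F
  have h1 : F = (F.roots.map fun r => X - C r).prod := hs.eq_prod_roots_of_monic hF
  have hmon : ∀ c : E, (h - C c).Monic := fun c =>
    hh.sub_of_left (degree_C_le.trans_lt (natDegree_pos_iff_degree_pos.1 hhd))
  have hnd : F.roots.Nodup := by
    rw [Multiset.nodup_iff_count_le_one]
    intro c
    by_contra hcon
    push Not at hcon
    have h2 : (X - C c) ^ 2 ∣ F := by
      rw [← le_rootMultiplicity_iff hF.ne_zero, ← count_roots]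
      exact hcon
    obtain ⟨G, hG⟩ := h2
    have h3 : (h - C c) * (h - C c) ∣ pl a := by
      refine Dvd.dvd.trans ⟨G.comp h, ?_⟩ hd
      conv_lhs => rw [hG]
      rw [mul_comp, pow_comp, sub_comp, X_comp, C_comp, pow_two]
    have h4 := squarefree_pl ha _ h3
    have h5 := natDegree_eq_zero_of_isUnit h4
    rw [natDegree_sub_C] at h5
    omega
  have h2 : F = ∏ c ∈ F.roots.toFinset, (X - C c) := by
    show F = (Multiset.map (fun r => X - C r) F.roots.toFinset.val).prod
    rw [Multiset.toFinset_val, hnd.dedup]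
    exact h1
  refine ⟨h2, ?_, fun c hc => ⟨hmon c, ?_⟩⟩
  · rw [Multiset.toFinset_card_of_nodup hnd]
    exact hs.natDegree_eq_card_roots.symm
  · refine Dvd.dvd.trans ?_ hd
    have h3 : X - C c ∣ F := dvd_iff_isRoot.2 ((mem_roots hF.ne_zero).1 (Multiset.mem_toFinset.1 hc))
    obtain ⟨G, hG⟩ := h3
    refine ⟨G.comp h, ?_⟩
    conv_lhs => rw [hG]
    rw [mul_comp, sub_comp, X_comp, C_comp]

/-- the numbers of the roots over the roots of `F` -/
theorem card_fibre {n : ℕ} {a : Fin n → E} (ha : Function.Injective a) {F h : E[X]}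
    (hF : F.Monic) (hh : h.Monic) (hhd : 0 < h.natDegree) (hd : F.comp h ∣ pl a) [DecidableEq E] :
    (∀ c ∈ F.roots.toFinset, (Finset.univ.filter fun i => h.eval (a i) = c).card = h.natDegree) ∧
      (Finset.univ.filter fun i => h.eval (a i) ∈ F.roots.toFinset).card =
        F.natDegree * h.natDegree := by
  obtain ⟨-, h2, h3⟩ := eq_prod_roots ha hF hh hhd hd
  have key : ∀ c ∈ F.roots.toFinset,
      (Finset.univ.filter fun i => h.eval (a i) = c).card = h.natDegree := by
    intro c hc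
    obtain ⟨h4, h5⟩ := h3 c hc
    have h6 := congrArg natDegree (eq_prod_filter ha h4 h5)
    rw [natDegree_sub_C, natDegree_prod_of_monic _ _ fun i _ => monic_X_sub_C _] at h6
    simp only [natDegree_X_sub_C, Finset.sum_const, smul_eq_mul, mul_one, eval_sub, eval_C,
      sub_eq_zero] at h6
    exact h6.symm
  refine ⟨key, ?_⟩
  rw [Finset.card_eq_sum_card_fiberwise (f := fun i => h.eval (a i)) (t := F.roots.toFinset)]
  · have h7 : ∀ c ∈ F.roots.toFinset, ((Finset.univ.filter fun i => h.eval (a i) ∈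
        F.roots.toFinset).filter fun i => h.eval (a i) = c).card = h.natDegree := by
      intro c hc
      rw [← key c hc]
      congr 1
      ext i
      simp only [Finset.mem_filter, Finset.mem_univ, true_and]
      constructor
      · exact fun h => h.2
      · intro h
        exact ⟨h ▸ hc, h⟩
    rw [Finset.sum_congr rfl h7, Finset.sum_const, smul_eq_mul, h2]
  · intro i hi
    exact (Finset.mem_filter.1 hi).2

end poly

section expand

variable {E : Type*} [Field E] [IsAlgClosed E] [DecidableEq E] {lam : E} {n n' : ℕ}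
  {a : Fin n → E} {b : Fin n' → E}

/-- the class in the ring of the curve -/
noncomputable def bD (lam : E) (a : Fin n → E) (b : Fin n' → E) (F h k : E[X]) :
    KQ (Crv lam (pl a) (pl b)) 2 :=
  ∑ i, ∑ j, mat F.roots.toFinset F.natDegree (fun i => h.eval (a i)) (fun j => k.eval (b j)) i j •
    s2 (ux lam a b i) (uy lam a b j)

variable {M : Type*} [Field M] (g : Crv lam (pl a) (pl b) →+* M)

/-- **The expansion of the class of `F`, `h`, `k`.** -/
theorem map_bD (ha : Function.Injective a) (hb : Function.Injective b) {F h k : E[X]}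
    (hF : F.Monic) (hh : h.Monic) (hk : k.Monic) (hhd : 0 < h.natDegree) (hkd : 0 < k.natDegree)
    (hd : F.comp h ∣ pl a) (hd' : F.comp k ∣ pl b)
    (hne : g (fx lam (pl a) (pl b) h - fy lam (pl a) (pl b) k) ≠ 0) :
    KQ.map 2 g (bD lam a b F h k) = diagClass g F h k := by
  obtain ⟨h1, -, h3⟩ := eq_prod_roots ha hF hh hhd hd
  obtain ⟨-, -, h6⟩ := eq_prod_roots hb hF hk hkd hd'
  set R := F.roots.toFinset with hR
  set U : Fin n → Mˣ := fun i => Units.map (g : _ →* M) (ux lam a b i) with hU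
  set W : Fin n' → Mˣ := fun j => Units.map (g : _ →* M) (uy lam a b j) with hW
  have eU : ∀ G : E[X], G.Monic → G ∣ pl a → g (fx lam (pl a) (pl b) G) =
      ((∏ i with G.eval (a i) = 0, U i : Mˣ) : M) := by
    intro G hG hGd
    rw [fx_eq lam ha hG hGd, hU, Units.coe_prod, Units.coe_prod, map_prod]
    rfl
  have eW : ∀ G : E[X], G.Monic → G ∣ pl b → g (fy lam (pl a) (pl b) G) =
      ((∏ i with G.eval (b i) = 0, W i : Mˣ) : M) := by
    intro G hG hGd
    rw [fy_eq lam hb hG hGd, hW, Units.coe_prod, Units.coe_prod, map_prod]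
    rfl
  have hcomp : ∀ h : E[X], F.comp h = ∏ c ∈ R, (h - C c) := by
    intro h
    conv_lhs => rw [h1]
    rw [prod_comp]
    simp
  have eUc : ∀ c ∈ R, ((∏ i with h.eval (a i) = c, U i : Mˣ) : M) =
      g (fx lam (pl a) (pl b) (h - C c)) := by
    intro c hc
    rw [eU _ (h3 c hc).1 (h3 c hc).2]
    simp only [eval_sub, eval_C, sub_eq_zero]
  have eWc : ∀ c ∈ R, ((∏ i with k.eval (b i) = c, W i : Mˣ) : M) =
      g (fy lam (pl a) (pl b) (k - C c)) := by
    intro c hc
    rw [eW _ (h6 c hc).1 (h6 c hc).2]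
    simp only [eval_sub, eval_C, sub_eq_zero]
  have e1 : un (g (fx lam (pl a) (pl b) (F.comp h))) = ∏ c ∈ R, ∏ i with h.eval (a i) = c, U i := by
    refine un_eq ?_
    rw [Units.coe_prod, hcomp, fx_prod, map_prod]
    exact Finset.prod_congr rfl fun c hc => eUc c hc
  have e2 : un (g (fy lam (pl a) (pl b) (F.comp k))) = ∏ c ∈ R, ∏ i with k.eval (b i) = c, W i := by
    refine un_eq ?_
    rw [Units.coe_prod, hcomp, fy_prod, map_prod]
    exact Finset.prod_congr rfl fun c hc => eWc c hc
  have e3 := bt_eq_mat R F.natDegree (fun i => h.eval (a i)) (fun j => k.eval (b j)) U W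
    (un (g (fx lam (pl a) (pl b) h - fy lam (pl a) (pl b) k))) (by
      intro c hc
      rw [eUc c hc, eWc c hc, coe_un hne, ← map_sub]
      congr 1
      have f1 : ∀ G H : E[X], fx lam (pl a) (pl b) (G - H) = fx lam _ _ G - fx lam _ _ H := by
        intro G H
        unfold fx
        rw [map_sub, map_sub]
      have f2 : ∀ G H : E[X], fy lam (pl a) (pl b) (G - H) = fy lam _ _ G - fy lam _ _ H := by
        intro G H
        unfold fy
        rw [map_sub, map_sub]
      have f3 : fx lam (pl a) (pl b) (C c) = fy lam (pl a) (pl b) (C c) := by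
        unfold fx fy
        rw [aeval_C, aeval_C]
      rw [f1, f2, f3]
      ring)
  unfold diagClass
  rw [e1, e2, e3]
  unfold bD
  rw [map_sum]
  refine Finset.sum_congr rfl fun i _ => ?_
  rw [map_sum]
  refine Finset.sum_congr rfl fun j _ => ?_
  rw [map_smul, map_s2]

/-- the class of a product in the ring of the curve -/
noncomputable def bP (lam : E) (a : Fin n → E) (b : Fin n' → E) (A : Fin n → ℚ) (B : Fin n' → ℚ) :
    KQ (Crv lam (pl a) (pl b)) 2 :=
  ∑ i, ∑ j, (A i * B j) • s2 (ux lam a b i) (uy lam a b j)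

omit [IsAlgClosed E] in
/-- **The expansion of the product classes.** -/
theorem map_bP (ha : Function.Injective a) (hb : Function.Injective b) {P₀ P₁ Q₀ Q₁ : E[X]}
    (hP₀ : P₀.Monic) (hP₁ : P₁.Monic) (hQ₀ : Q₀.Monic) (hQ₁ : Q₁.Monic) (d0 : P₀ ∣ pl a)
    (d1 : P₁ ∣ pl a) (d2 : Q₀ ∣ pl b) (d3 : Q₁ ∣ pl b) (A : Fin n → ℚ) (B : Fin n' → ℚ)
    (hA : ∀ i, A i = (P₀.natDegree : ℚ) * (if P₁.eval (a i) = 0 then 1 else 0) -
      (P₁.natDegree : ℚ) * (if P₀.eval (a i) = 0 then 1 else 0))
    (hB : ∀ i, B i = (Q₀.natDegree : ℚ) * (if Q₁.eval (b i) = 0 then 1 else 0) -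
      (Q₁.natDegree : ℚ) * (if Q₀.eval (b i) = 0 then 1 else 0)) :
    KQ.map 2 g (bP lam a b A B) = prodClass g P₀ P₁ Q₀ Q₁ := by
  set U : Fin n → Mˣ := fun i => Units.map (g : _ →* M) (ux lam a b i) with hU
  set W : Fin n' → Mˣ := fun j => Units.map (g : _ →* M) (uy lam a b j) with hW
  have eU : ∀ G : E[X], G.Monic → G ∣ pl a → un (g (fx lam (pl a) (pl b) G)) =
      ∏ i with G.eval (a i) = 0, U i := by
    intro G hG hGd
    refine un_eq ?_
    rw [fx_eq lam ha hG hGd, hU, Units.coe_prod, Units.coe_prod, map_prod]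
    rfl
  have eW : ∀ G : E[X], G.Monic → G ∣ pl b → un (g (fy lam (pl a) (pl b) G)) =
      ∏ i with G.eval (b i) = 0, W i := by
    intro G hG hGd
    refine un_eq ?_
    rw [fy_eq lam hb hG hGd, hW, Units.coe_prod, Units.coe_prod, map_prod]
    rfl
  unfold prodClass
  rw [eU _ hP₀ d0, eU _ hP₁ d1, eW _ hQ₀ d2, eW _ hQ₁ d3]
  -- the left entry
  have k1 : ∀ w : Mˣ, s2 ((∏ i with P₁.eval (a i) = 0, U i) ^ P₀.natDegree /
      (∏ i with P₀.eval (a i) = 0, U i) ^ P₁.natDegree) w = ∑ i, A i • s2 (U i) w := by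
    intro w
    rw [s2_div_left, s2_pow_left, s2_pow_left, s2_prod_left, s2_prod_left, Finset.sum_filter,
      Finset.sum_filter, Finset.smul_sum, Finset.smul_sum, ← Finset.sum_sub_distrib]
    refine Finset.sum_congr rfl fun i _ => ?_
    rw [hA]
    split_ifs <;> module
  have k2 : ∀ u : Mˣ, s2 u ((∏ i with Q₁.eval (b i) = 0, W i) ^ Q₀.natDegree /
      (∏ i with Q₀.eval (b i) = 0, W i) ^ Q₁.natDegree) = ∑ i, B i • s2 u (W i) := by
    intro u
    rw [s2_div_right, s2_pow_right, s2_pow_right, s2_prod_right, s2_prod_right, Finset.sum_filter,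
      Finset.sum_filter, Finset.smul_sum, Finset.smul_sum, ← Finset.sum_sub_distrib]
    refine Finset.sum_congr rfl fun i _ => ?_
    rw [hB]
    split_ifs <;> module
  rw [k1]
  unfold bP
  rw [map_sum]
  refine Finset.sum_congr rfl fun i _ => ?_
  rw [k2, map_sum, Finset.smul_sum]
  refine Finset.sum_congr rfl fun j _ => ?_
  rw [map_smul, map_s2, smul_smul]

end expand

end Pool.Agent.Run7.h153.NS
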