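import Pool.Agent.Run7.h153.NS.Cx
set_option autoImplicit false

/-!
The curve `λ P(x) Q(y) = 1` over the ground field: it is integral and smooth, and `h(x) ≠ k(y)`.
-/

namespace Pool.Agent.Run7.h153.NS

open Polynomial

open Pool.Agent.TH826.MK

section cx

variable {lam : ℂ} {PP QQ : ℂ[X]}

theorem smooth_cx (mP : PP.Monic) (mQ : QQ.Monic) (sP : PP.Separable)
    (sQ : QQ.Separable) (dP : 0 < PP.natDegree) (dQ : 0 < QQ.natDegree)
    (hcrit : ∀ ξ η : ℂ, (derivative PP).eval ξ = 0 → (derivative QQ).eval η = 0 →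
      1 < ‖lam * PP.eval ξ * QQ.eval η‖) (x : Fin 2 → ℂ)
    (hx : MvPolynomial.eval x (eqn lam PP QQ) = 0) :
    ∃ k, MvPolynomial.eval x (MvPolynomial.pderiv k (eqn lam PP QQ)) ≠ 0 := by
  obtain ⟨ρ, a, ha, h0, h1⟩ := exists_fam mP mQ sP sQ dP dQ
  subst h0 h1
  rw [eqn_eq] at hx ⊢
  exact Pool.Agent.N686.DI.smooth (RingHom.id ℂ) a (by
    intro ξ η hξ hη
    have h3 := hcrit ξ η hξ hη
    unfold pl at h3
    rw [eval_prod, eval_prod] at h3
    simpa using h3) x hx

theorem irreducible_cx (hl0 : lam ≠ 0) (mP : PP.Monic) (mQ : QQ.Monic) (sP : PP.Separable)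
    (sQ : QQ.Separable) (dP : 0 < PP.natDegree) (dQ : 0 < QQ.natDegree) :
    Irreducible (eqn lam PP QQ) := by
  obtain ⟨ρ, a, ha, h0, h1⟩ := exists_fam mP mQ sP sQ dP dQ
  subst h0 h1
  exact irreducible_split lam a hl0 ha

end cx

section ne

variable {K : Type*} [Field K] [Infinite K] {lam : K} {P Q h k : K[X]}

/-- `h(x) ≠ k(y)` on the curve, if the degree of `h` is smaller than that of `P`. -/
theorem fx_sub_fy_ne (hl0 : lam ≠ 0) (hQ : Q.Monic) (hh : h.Monic)
    (hhd : 0 < h.natDegree) (hlt : h.natDegree < P.natDegree) :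
    fx lam P Q h - fy lam P Q k ≠ 0 := by
  intro h0
  unfold fx fy at h0
  rw [← map_sub] at h0
  have h1 : aeval (MvPolynomial.X 0 : MvPolynomial (Fin 2) K) h -
      aeval (MvPolynomial.X 1 : MvPolynomial (Fin 2) K) k ∈ Ideal.span {eqn lam P Q} :=
    Ideal.Quotient.eq_zero_iff_mem.1 h0
  obtain ⟨G, hG⟩ := Ideal.mem_span_singleton'.1 h1
  -- a value of `y`
  obtain ⟨y, hy⟩ : ∃ y, Q.eval y ≠ 0 := by
    by_contra hcon
    push Not at hcon
    exact hQ.ne_zero (Polynomial.funext fun y => by rw [hcon y, eval_zero])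
  set ev : MvPolynomial (Fin 2) K →+* K[X] := MvPolynomial.eval₂Hom C ![X, C y] with hev
  have e0 : ∀ G : K[X], ev (aeval (MvPolynomial.X 0) G) = G := by
    intro G
    rw [aeval_def, hom_eval₂]
    have h2 : ev (MvPolynomial.X 0) = X := by
      rw [hev]
      simp
    have h3 : ev.comp (algebraMap K (MvPolynomial (Fin 2) K)) = C := by
      ext c
      rw [hev]
      simp [MvPolynomial.algebraMap_eq]
    rw [h2, h3, eval₂_C_X]
  have e1 : ∀ G : K[X], ev (aeval (MvPolynomial.X 1) G) = C (G.eval y) := by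
    intro G
    rw [aeval_def, hom_eval₂]
    have h2 : ev (MvPolynomial.X 1) = C y := by
      rw [hev]
      simp
    have h3 : ev.comp (algebraMap K (MvPolynomial (Fin 2) K)) = C := by
      ext c
      rw [hev]
      simp [MvPolynomial.algebraMap_eq]
    rw [h2, h3, eval₂_at_apply]
  have e2 : ev (eqn lam P Q) = C (lam * Q.eval y) * P - 1 := by
    unfold eqn
    rw [map_sub, map_mul, map_mul, e0, e1, map_one]
    have h3 : ev (MvPolynomial.C lam) = C lam := by
      rw [hev]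
      simp
    rw [h3, C_mul]
    ring
  have h4 := congrArg ev hG
  rw [map_mul, map_sub, e0, e1, e2] at h4
  have hm : (h - C (k.eval y)).Monic :=
    hh.sub_of_left (degree_C_le.trans_lt (natDegree_pos_iff_degree_pos.1 hhd))
  have h5 : (C (lam * Q.eval y) * P - 1) ∣ h - C (k.eval y) := ⟨ev G, by rw [← h4, mul_comm]⟩
  have h6 := natDegree_le_of_dvd h5 hm.ne_zero
  rw [natDegree_sub_C] at h6
  have h7 : (C (lam * Q.eval y) * P - 1).natDegree = P.natDegree := by
    have h8 : (C (lam * Q.eval y) * P - 1) = C (lam * Q.eval y) * P - C 1 := by rw [C_1]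
    rw [h8, natDegree_sub_C, natDegree_C_mul (mul_ne_zero hl0 hy)]
  rw [h7] at h6
  omega

end ne

section final

variable {K : Type*} [Field K]

theorem monicInt_comp {F h : K[X]} (hF : MonicInt F) (hh : MonicInt h) (hd : 0 < h.natDegree) :
    MonicInt (F.comp h) := by
  refine ⟨hF.1.comp hh.1 hd.ne', ?_⟩
  -- the coefficients are in the integral closure
  have hl : ∀ G : K[X], (∀ n, IsIntegral ℤ (G.coeff n)) ↔ G ∈ Polynomial.lifts
      (algebraMap (integralClosure ℤ K) K) := by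
    intro G
    rw [lifts_iff_coeff_lifts]
    refine forall_congr' fun n => ?_
    constructor
    · intro h
      exact ⟨⟨_, h⟩, rfl⟩
    · rintro ⟨z, hz⟩
      rw [← hz]
      exact z.2
  rw [hl]
  obtain ⟨F', hF'⟩ := (mem_lifts F).1 ((hl F).1 hF.2)
  obtain ⟨h', hh'⟩ := (mem_lifts h).1 ((hl h).1 hh.2)
  rw [mem_lifts]
  exact ⟨F'.comp h', by rw [map_comp, hF', hh']⟩

theorem monicInt_prod {ι : Type*} (s : Finset ι) {P : ι → K[X]} (hP : ∀ i ∈ s, MonicInt (P i)) :
    MonicInt (∏ i ∈ s, P i) := by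
  classical
  refine ⟨monic_prod_of_monic _ _ fun i hi => (hP i hi).1, ?_⟩
  have hl : ∀ G : K[X], (∀ n, IsIntegral ℤ (G.coeff n)) ↔ G ∈ Polynomial.lifts
      (algebraMap (integralClosure ℤ K) K) := by
    intro G
    rw [lifts_iff_coeff_lifts]
    refine forall_congr' fun n => ?_
    constructor
    · intro h
      exact ⟨⟨_, h⟩, rfl⟩
    · rintro ⟨z, hz⟩
      rw [← hz]
      exact z.2
  rw [hl]
  exact Subsemiring.prod_mem _ fun i hi => (hl _).1 (hP i hi).2

theorem diagClass_comp {E : Type*} [Field E] (σ : K →+* E) {lam : K} {P Q : K[X]} {M : Type*}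
    [Field M] (g : Crv (σ lam) (P.map σ) (Q.map σ) →+* M) (F h k : K[X]) :
    diagClass (g.comp (bc σ lam P Q)) F h k = diagClass g (F.map σ) (h.map σ) (k.map σ) := by
  unfold diagClass
  rw [natDegree_map, ← map_comp, ← map_comp, RingHom.comp_apply, RingHom.comp_apply,
    RingHom.comp_apply, bc_fx, bc_fy, map_sub, bc_fx, bc_fy]

theorem prodClass_comp {E : Type*} [Field E] (σ : K →+* E) {lam : K} {P Q : K[X]} {M : Type*}
    [Field M] (g : Crv (σ lam) (P.map σ) (Q.map σ) →+* M) (P₀ P₁ Q₀ Q₁ : K[X]) :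
    prodClass (g.comp (bc σ lam P Q)) P₀ P₁ Q₀ Q₁ =
      prodClass g (P₀.map σ) (P₁.map σ) (Q₀.map σ) (Q₁.map σ) := by
  unfold prodClass
  simp only [natDegree_map, RingHom.comp_apply, bc_fx, bc_fy]

end final

end Pool.Agent.Run7.h153.NS
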