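import Pool.Agent.TH826.SX.Milnor
set_option autoImplicit false

/-!
Symbols with two entries in the rational Milnor K-group `K_2 ⊗ ℚ` of a field, and the class
`{U/W, D} - 1/d {U, W}`, `U = F(u)`, `W = F(w)`, `D = u - w`, of a polynomial `F` of degree `d`.
-/

namespace Pool.Agent.Run7.h153.NS

open scoped WithZero

open Pool.Agent.TH826.MK

open Pool.Agent.TH826.SX

section ring

variable {A : Type*} [CommRing A]

/-- The symbol `{u, w}`. -/
noncomputable def s2 (u w : Aˣ) : KQ A 2 := symb ![u, w]

theorem upd0 (u w x : Aˣ) : Function.update ![u, w] 0 x = ![x, w] := by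
  funext i
  fin_cases i <;> simp

theorem upd1 (u w x : Aˣ) : Function.update ![u, w] 1 x = ![u, x] := by
  funext i
  fin_cases i <;> simp

theorem s2_mul_left (u u' w : Aˣ) : s2 (u * u') w = s2 u w + s2 u' w := by
  have h := symb_update_mul ![u, w] 0 u u'
  rw [upd0, upd0, upd0] at h
  exact h

theorem s2_mul_right (u w w' : Aˣ) : s2 u (w * w') = s2 u w + s2 u w' := by
  have h := symb_update_mul ![u, w] 1 w w'
  rw [upd1, upd1, upd1] at h
  exact h

theorem s2_one_left (w : Aˣ) : s2 (1 : Aˣ) w = 0 := by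
  have h := s2_mul_left 1 1 w
  rw [mul_one] at h
  exact left_eq_add.1 h

theorem s2_one_right (u : Aˣ) : s2 u (1 : Aˣ) = 0 := by
  have h := s2_mul_right u 1 1
  rw [mul_one] at h
  exact left_eq_add.1 h

theorem s2_inv_left (u w : Aˣ) : s2 u⁻¹ w = -s2 u w := by
  have h := s2_mul_left u u⁻¹ w
  rw [mul_inv_cancel, s2_one_left] at h
  exact (neg_eq_of_add_eq_zero_right h.symm).symm

theorem s2_inv_right (u w : Aˣ) : s2 u w⁻¹ = -s2 u w := by
  have h := s2_mul_right u w w⁻¹
  rw [mul_inv_cancel, s2_one_right] at h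
  exact (neg_eq_of_add_eq_zero_right h.symm).symm

theorem s2_div_left (u u' w : Aˣ) : s2 (u / u') w = s2 u w - s2 u' w := by
  rw [div_eq_mul_inv, s2_mul_left, s2_inv_left, sub_eq_add_neg]

theorem s2_div_right (u w w' : Aˣ) : s2 u (w / w') = s2 u w - s2 u w' := by
  rw [div_eq_mul_inv, s2_mul_right, s2_inv_right, sub_eq_add_neg]

theorem s2_pow_left (u w : Aˣ) (n : ℕ) : s2 (u ^ n) w = (n : ℚ) • s2 u w := by
  induction n with
  | zero => rw [pow_zero, s2_one_left, Nat.cast_zero, zero_smul]
  | succ n ih => rw [pow_succ, s2_mul_left, ih, Nat.cast_add, Nat.cast_one, add_smul, one_smul]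

theorem s2_pow_right (u w : Aˣ) (n : ℕ) : s2 u (w ^ n) = (n : ℚ) • s2 u w := by
  induction n with
  | zero => rw [pow_zero, s2_one_right, Nat.cast_zero, zero_smul]
  | succ n ih => rw [pow_succ, s2_mul_right, ih, Nat.cast_add, Nat.cast_one, add_smul, one_smul]

theorem s2_prod_left {ι : Type*} (s : Finset ι) (f : ι → Aˣ) (w : Aˣ) :
    s2 (∏ i ∈ s, f i) w = ∑ i ∈ s, s2 (f i) w := by
  classical
  induction s using Finset.induction_on with
  | empty => simp [s2_one_left]
  | insert j s hj ih => rw [Finset.prod_insert hj, Finset.sum_insert hj, s2_mul_left, ih]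

theorem s2_prod_right {ι : Type*} (s : Finset ι) (u : Aˣ) (f : ι → Aˣ) :
    s2 u (∏ i ∈ s, f i) = ∑ i ∈ s, s2 u (f i) := by
  classical
  induction s using Finset.induction_on with
  | empty => simp [s2_one_right]
  | insert j s hj ih => rw [Finset.prod_insert hj, Finset.sum_insert hj, s2_mul_right, ih]

variable {B : Type*} [CommRing B]

theorem map_s2 (f : A →+* B) (u w : Aˣ) :
    KQ.map 2 f (s2 u w) = s2 (Units.map (f : A →* B) u) (Units.map (f : A →* B) w) := by
  unfold s2
  rw [KQ.map_symb]
  congr 1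
  funext i
  fin_cases i <;> rfl

end ring

section field

variable {M : Type*} [Field M]

theorem s2_neg_left (u w : Mˣ) : s2 (-u) w = s2 u w := by
  have h := symb_upd_neg ![u, w] 0 u
  rw [upd0, upd0] at h
  exact h

theorem s2_neg_right (u w : Mˣ) : s2 u (-w) = s2 u w := by
  have h := symb_upd_neg ![u, w] 1 w
  rw [upd1, upd1] at h
  exact h

theorem s2_self (u : Mˣ) : s2 u u = 0 := by
  rw [← s2_neg_right]
  exact symb_self_neg ![u, -u] (i := 0) (j := 1) (by decide) rfl

theorem s2_symm (u w : Mˣ) : s2 u w = -s2 w u := by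
  have h := s2_self (u * w)
  rw [s2_mul_left, s2_mul_right, s2_mul_right, s2_self, s2_self, zero_add, add_zero] at h
  exact eq_neg_of_add_eq_zero_left h

theorem s2_steinberg (u w : Mˣ) (h : (u : M) + (w : M) = 1) : s2 u w = 0 :=
  symb_eq_zero _ ⟨0, 1, by decide, h⟩

/-- `{u, w} = {u / w, u - w}` -/
theorem s2_arnold (u w D : Mˣ) (h : (u : M) - (w : M) = D) : s2 u w = s2 u D - s2 w D := by
  have h1 : s2 (u / D) (-(w / D)) = 0 := by
    refine s2_steinberg _ _ ?_
    rw [Units.val_neg, Units.val_div_eq_div_val, Units.val_div_eq_div_val, ← sub_eq_add_neg,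
      ← sub_div, h, div_self D.ne_zero]
  rw [s2_neg_right, s2_div_left, s2_div_right, s2_div_right, s2_self, sub_zero,
    s2_symm D w, sub_neg_eq_add] at h1
  have h2 : s2 u w - s2 u D + s2 w D = 0 := h1
  rw [sub_add, sub_eq_zero] at h2
  exact h2

end field

section val

variable {M : Type*} [Field M] (v : Valuation M ℤᵐ⁰)

theorem mem_of_units {u w : Mˣ} (hu : v (u : M) = 1) (hw : v (w : M) = 1) :
    s2 u w ∈ unitPart v 2 := by
  refine Submodule.subset_span ⟨_, fun i => ?_, rfl⟩
  fin_cases i
  · exact hu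
  · exact hw

theorem mem_of_left {u : Mˣ} (w : Mˣ) (hu : v ((u : M) - 1) < 1) : s2 u w ∈ unitPart v 2 :=
  mem_unitPart_of_oneUnit' v 0 _ hu

theorem mem_of_right (u : Mˣ) {w : Mˣ} (hw : v ((w : M) - 1) < 1) : s2 u w ∈ unitPart v 2 :=
  mem_unitPart_of_oneUnit' v 1 _ hw

/-- the class of `U = F(u)`, `W = F(w)`, `D = u - w`, `F` of degree `d` -/
noncomputable def bt {A : Type*} [CommRing A] (d : ℕ) (U W D : Aˣ) : KQ A 2 :=
  s2 (U / W) D - (1 / (d : ℚ)) • s2 U W

theorem bt_symm (d : ℕ) (U W D : Mˣ) : bt d W U (-D) = -bt d U W D := by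
  unfold bt
  rw [s2_neg_right, s2_div_left, s2_div_left, s2_symm W U]
  module

/-- The class is the same modulo the unit part if the entries are changed by one-units. -/
theorem bt_congr (d : ℕ) {U W D U' W' D' : Mˣ} (hU : v (((U / U' : Mˣ) : M) - 1) < 1)
    (hW : v (((W / W' : Mˣ) : M) - 1) < 1) (hD : v (((D / D' : Mˣ) : M) - 1) < 1)
    (h : bt d U' W' D' ∈ unitPart v 2) : bt d U W D ∈ unitPart v 2 := by
  have hU2 : U = U' * (U / U') := by rw [mul_div_cancel]
  have hW2 : W = W' * (W / W') := by rw [mul_div_cancel]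
  have hD2 : D = D' * (D / D') := by rw [mul_div_cancel]
  generalize U / U' = a at hU hU2
  generalize W / W' = b at hW hW2
  generalize D / D' = c at hD hD2
  subst hU2 hW2 hD2
  have e : bt d (U' * a) (W' * b) (D' * c) = bt d U' W' D' +
      (s2 a D' + s2 U' c + s2 a c - s2 b D' - s2 W' c - s2 b c -
        (1 / (d : ℚ)) • (s2 a W' + s2 U' b + s2 a b)) := by
    unfold bt
    simp only [s2_div_left, s2_mul_left, s2_mul_right]
    module
  rw [e]
  refine Submodule.add_mem _ h (Submodule.sub_mem _ ?_ (Submodule.smul_mem _ _ ?_))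
  · refine Submodule.sub_mem _ (Submodule.sub_mem _ (Submodule.sub_mem _ (Submodule.add_mem _
      (Submodule.add_mem _ ?_ ?_) ?_) ?_) ?_) ?_
    · exact mem_of_left v _ hU
    · exact mem_of_right v _ hD
    · exact mem_of_left v _ hU
    · exact mem_of_left v _ hW
    · exact mem_of_right v _ hD
    · exact mem_of_left v _ hW
  · refine Submodule.add_mem _ (Submodule.add_mem _ ?_ ?_) ?_
    · exact mem_of_left v _ hU
    · exact mem_of_right v _ hW
    · exact mem_of_left v _ hU

/-- `F(u) / u^d` is a one-unit if `u` is not integral. -/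
theorem val_poly_sub {F : Polynomial M} (hF : F.Monic) (hc : ∀ k, v (F.coeff k) ≤ 1) {u : M}
    (hu : 1 < v u) : v (F.eval u / u ^ F.natDegree - 1) < 1 := by
  have hu0 : u ≠ 0 := by
    rintro rfl
    rw [map_zero] at hu
    exact not_lt_zero hu
  have hvu : 0 < v u := zero_lt_one.trans hu
  have e : F.eval u / u ^ F.natDegree - 1 =
      ∑ k ∈ Finset.range F.natDegree, F.coeff k * u ^ k / u ^ F.natDegree := by
    have h1 : F.eval u = (∑ k ∈ Finset.range F.natDegree, F.coeff k * u ^ k) +
        u ^ F.natDegree := by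
      rw [Polynomial.eval_eq_sum_range, Finset.sum_range_succ]
      rw [hF.coeff_natDegree, one_mul]
    rw [h1, add_div, div_self (pow_ne_zero _ hu0), add_sub_cancel_right, Finset.sum_div]
  rw [e]
  refine Valuation.map_sum_lt v one_ne_zero fun k hk => ?_
  have hk' : k < F.natDegree := Finset.mem_range.1 hk
  rw [map_div₀, map_mul, map_pow, map_pow, div_lt_one₀ (pow_pos hvu _)]
  calc v (F.coeff k) * v u ^ k ≤ 1 * v u ^ k := mul_le_mul' (hc k) le_rfl
    _ = v u ^ k := one_mul _
    _ < v u ^ F.natDegree := pow_lt_pow_right₀ hu hk'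

theorem val_poly_le {F : Polynomial M} (hc : ∀ k, v (F.coeff k) ≤ 1) {u : M}
    (hu : v u ≤ 1) : v (F.eval u) ≤ 1 := by
  rw [Polynomial.eval_eq_sum_range]
  refine Valuation.map_sum_le v fun k _ => ?_
  rw [map_mul, map_pow]
  exact mul_le_one' (hc k) (pow_le_one₀ zero_le hu)

/-- `F(u) - F(w)` is divisible by `u - w` -/
theorem val_poly_sub_le {F : Polynomial M} (hc : ∀ k, v (F.coeff k) ≤ 1) {u w : M}
    (hu : v u ≤ 1) (hw : v w ≤ 1) : v (F.eval u - F.eval w) ≤ v (u - w) := by
  rw [Polynomial.eval_eq_sum_range, Polynomial.eval_eq_sum_range, ← Finset.sum_sub_distrib]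
  refine Valuation.map_sum_le v fun k _ => ?_
  rw [← mul_sub, map_mul]
  have h1 : v (u ^ k - w ^ k) ≤ v (u - w) := by
    rw [← Commute.mul_geom_sum₂ (Commute.all u w), map_mul]
    calc v (u - w) * v (∑ i ∈ Finset.range k, u ^ i * w ^ (k - 1 - i)) ≤ v (u - w) * 1 := by
          refine mul_le_mul' le_rfl (Valuation.map_sum_le v fun i _ => ?_)
          rw [map_mul, map_pow, map_pow]
          exact mul_le_one' (pow_le_one₀ zero_le hu) (pow_le_one₀ zero_le hw)
      _ = v (u - w) := mul_one _
  calc v (F.coeff k) * v (u ^ k - w ^ k) ≤ 1 * v (u - w) := mul_le_mul' (hc k) h1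
    _ = v (u - w) := one_mul _

/-- **The class of a polynomial is unramified** at `v` if `F(u)` and `F(w)` are units of the
valuation ring in the case that `u` and `w` are integral. -/
theorem bt_mem {F : Polynomial M} (hF : F.Monic) (hd : 0 < F.natDegree)
    (hc : ∀ k, v (F.coeff k) ≤ 1)
    {U W D : Mˣ} {u w : M} (hU : (U : M) = F.eval u) (hW : (W : M) = F.eval w)
    (hD : (D : M) = u - w)
    (h : v u ≤ 1 → v w ≤ 1 → v (F.eval u) = 1 ∧ v (F.eval w) = 1) :
    bt F.natDegree U W D ∈ unitPart v 2 := by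
  have hd0 : (F.natDegree : ℚ) ≠ 0 := by exact_mod_cast hd.ne'
  -- one of the two is not integral
  have key : ∀ {U W D : Mˣ} {u w : M}, (U : M) = F.eval u → (W : M) = F.eval w →
      (D : M) = u - w → 1 < v u → v w ≤ 1 → bt F.natDegree U W D ∈ unitPart v 2 := by
    intro U W D u w hU hW hD hu hw
    have hu0 : u ≠ 0 := by
      rintro rfl
      rw [map_zero] at hu
      exact not_lt_zero hu
    set y : Mˣ := Units.mk0 u hu0 with hy
    refine bt_congr v _ (U' := y ^ F.natDegree) (W' := W) (D' := y) ?_ ?_ ?_ ?_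
    · rw [Units.val_div_eq_div_val, Units.val_pow_eq_pow_val, hy, Units.val_mk0, hU]
      exact val_poly_sub v hF hc hu
    · rw [div_self', Units.val_one, sub_self, map_zero]
      exact zero_lt_one
    · rw [Units.val_div_eq_div_val, hy, Units.val_mk0, hD, sub_div, div_self hu0,
        sub_sub_cancel_left, Valuation.map_neg, map_div₀, div_lt_one₀ (zero_lt_one.trans hu)]
      exact hw.trans_lt hu
    · have e : bt F.natDegree (y ^ F.natDegree) W y = 0 := by
        unfold bt
        rw [s2_div_left, s2_pow_left, s2_pow_left, s2_self, smul_zero, zero_sub, smul_smul,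
          one_div, inv_mul_cancel₀ hd0, one_smul, s2_symm y W]
        abel
      rw [e]
      exact Submodule.zero_mem _
  rcases le_or_gt (v u) 1 with hu | hu
  · rcases le_or_gt (v w) 1 with hw | hw
    · obtain ⟨h1, h2⟩ := h hu hw
      have hU1 : v (U : M) = 1 := by rw [hU, h1]
      have hW1 : v (W : M) = 1 := by rw [hW, h2]
      have hDle : v (D : M) ≤ 1 := by
        rw [hD]
        exact (v.map_sub _ _).trans (max_le hu hw)
      unfold bt
      refine Submodule.sub_mem _ ?_ (Submodule.smul_mem _ _ (mem_of_units v hU1 hW1))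
      rcases hDle.lt_or_eq with hD1 | hD1
      · refine mem_of_left v _ ?_
        rw [Units.val_div_eq_div_val, div_sub_one W.ne_zero, map_div₀, hW1, div_one, hU, hW]
        exact (val_poly_sub_le v hc hu hw).trans_lt (by rw [← hD]; exact hD1)
      · refine mem_of_units v ?_ hD1
        rw [Units.val_div_eq_div_val, map_div₀, hU1, hW1, div_one]
    · have h1 := key (U := W) (W := U) (D := -D) hW hU (by rw [Units.val_neg, hD]; ring) hw hu
      rw [bt_symm] at h1
      exact (Submodule.neg_mem_iff _).1 h1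
  · rcases le_or_gt (v w) 1 with hw | hw
    · exact key hU hW hD hu hw
    · have hu0 : u ≠ 0 := by
        rintro rfl
        rw [map_zero] at hu
        exact not_lt_zero hu
      have hw0 : w ≠ 0 := by
        rintro rfl
        rw [map_zero] at hw
        exact not_lt_zero hw
      set y : Mˣ := Units.mk0 u hu0 with hy
      set z : Mˣ := Units.mk0 w hw0 with hz
      refine bt_congr v _ (U' := y ^ F.natDegree) (W' := z ^ F.natDegree) (D' := D) ?_ ?_ ?_ ?_
      · rw [Units.val_div_eq_div_val, Units.val_pow_eq_pow_val, hy, Units.val_mk0, hU]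
        exact val_poly_sub v hF hc hu
      · rw [Units.val_div_eq_div_val, Units.val_pow_eq_pow_val, hz, Units.val_mk0, hW]
        exact val_poly_sub v hF hc hw
      · rw [div_self', Units.val_one, sub_self, map_zero]
        exact zero_lt_one
      · have e : bt F.natDegree (y ^ F.natDegree) (z ^ F.natDegree) D = 0 := by
          unfold bt
          rw [s2_div_left, s2_pow_left, s2_pow_left, s2_pow_left, s2_pow_right,
            s2_arnold y z D (by rw [hy, hz, Units.val_mk0, Units.val_mk0, hD]), smul_smul,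
            one_div, inv_mul_cancel₀ hd0, one_smul, smul_sub, sub_self]
        rw [e]
        exact Submodule.zero_mem _

end val

end Pool.Agent.Run7.h153.NS
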