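import Pool.Agent.Run7.h153.NS.Mil
set_option autoImplicit false

/-!
The class of a polynomial, over a field which contains its roots, as a combination of the symbols
`{x - a_i, y - b_j}`.
-/

namespace Pool.Agent.Run7.h153.NS

open Polynomial

open Pool.Agent.TH826.MK

section

variable {M : Type*} [Field M]

theorem bt_eq_sum {κ : Type*} (R : Finset κ) (d : ℕ) (pu pw : κ → Mˣ) (D : Mˣ)
    (hD : ∀ c ∈ R, (pu c : M) - (pw c : M) = D) :
    bt d (∏ c ∈ R, pu c) (∏ c ∈ R, pw c) D =
      ∑ c ∈ R, s2 (pu c) (pw c) - (1 / (d : ℚ)) • ∑ c ∈ R, ∑ c' ∈ R, s2 (pu c) (pw c') := by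
  unfold bt
  rw [s2_div_left, s2_prod_left, s2_prod_left, s2_prod_left, ← Finset.sum_sub_distrib]
  congr 1
  · refine Finset.sum_congr rfl fun c hc => ?_
    rw [s2_arnold _ _ D (hD c hc)]
  · congr 1
    refine Finset.sum_congr rfl fun c _ => ?_
    rw [s2_prod_right]

variable {ι ι' κ : Type*} [Fintype ι] [Fintype ι'] [DecidableEq κ]

/-- The matrix of the class. -/
noncomputable def mat (R : Finset κ) (d : ℕ) (α : ι → κ) (β : ι' → κ) (i : ι) (j : ι') : ℚ :=
  if α i ∈ R ∧ β j ∈ R then (if α i = β j then 1 else 0) - 1 / (d : ℚ) else 0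

theorem bt_eq_mat (R : Finset κ) (d : ℕ) (α : ι → κ) (β : ι' → κ) (ux : ι → Mˣ) (uy : ι' → Mˣ)
    (D : Mˣ) (hD : ∀ c ∈ R, ((∏ i with α i = c, ux i : Mˣ) : M) - (∏ j with β j = c, uy j : Mˣ) = D) :
    bt d (∏ c ∈ R, ∏ i with α i = c, ux i) (∏ c ∈ R, ∏ j with β j = c, uy j) D =
      ∑ i, ∑ j, mat R d α β i j • s2 (ux i) (uy j) := by
  classical
  rw [bt_eq_sum R d (fun c => ∏ i with α i = c, ux i) (fun c => ∏ j with β j = c, uy j) D hD]
  have e1 : ∀ c c' : κ, s2 (∏ i with α i = c, ux i) (∏ j with β j = c', uy j) =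
      ∑ i, ∑ j, (if α i = c ∧ β j = c' then (1 : ℚ) else 0) • s2 (ux i) (uy j) := by
    intro c c'
    rw [s2_prod_left, Finset.sum_filter]
    refine Finset.sum_congr rfl fun i _ => ?_
    by_cases h : α i = c
    · rw [if_pos h, s2_prod_right, Finset.sum_filter]
      refine Finset.sum_congr rfl fun j _ => ?_
      by_cases h' : β j = c'
      · rw [if_pos h', if_pos ⟨h, h'⟩, one_smul]
      · rw [if_neg h', if_neg fun e => h' e.2, zero_smul]
    · rw [if_neg h]
      symm
      refine Finset.sum_eq_zero fun j _ => ?_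
      rw [if_neg fun e => h e.1, zero_smul]
  simp only [e1]
  have e2 : ∑ c ∈ R, ∑ i, ∑ j, (if α i = c ∧ β j = c then (1 : ℚ) else 0) • s2 (ux i) (uy j) =
      ∑ i, ∑ j, (∑ c ∈ R, if α i = c ∧ β j = c then (1 : ℚ) else 0) • s2 (ux i) (uy j) := by
    rw [Finset.sum_comm]
    refine Finset.sum_congr rfl fun i _ => ?_
    rw [Finset.sum_comm]
    refine Finset.sum_congr rfl fun j _ => ?_
    rw [Finset.sum_smul]
  have e3 : ∑ c ∈ R, ∑ c' ∈ R, ∑ i, ∑ j, (if α i = c ∧ β j = c' then (1 : ℚ) else 0) •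
      s2 (ux i) (uy j) = ∑ i, ∑ j, (∑ c ∈ R, ∑ c' ∈ R,
        if α i = c ∧ β j = c' then (1 : ℚ) else 0) • s2 (ux i) (uy j) := by
    have h1 : ∀ c, ∑ c' ∈ R, ∑ i, ∑ j, (if α i = c ∧ β j = c' then (1 : ℚ) else 0) •
        s2 (ux i) (uy j) = ∑ i, ∑ j, (∑ c' ∈ R,
          if α i = c ∧ β j = c' then (1 : ℚ) else 0) • s2 (ux i) (uy j) := by
      intro c
      rw [Finset.sum_comm]
      refine Finset.sum_congr rfl fun i _ => ?_
      rw [Finset.sum_comm]
      refine Finset.sum_congr rfl fun j _ => ?_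
      rw [Finset.sum_smul]
    simp only [h1]
    rw [Finset.sum_comm]
    refine Finset.sum_congr rfl fun i _ => ?_
    rw [Finset.sum_comm]
    refine Finset.sum_congr rfl fun j _ => ?_
    rw [← Finset.sum_smul]
  rw [e2, e3, Finset.smul_sum, ← Finset.sum_sub_distrib]
  refine Finset.sum_congr rfl fun i _ => ?_
  rw [Finset.smul_sum, ← Finset.sum_sub_distrib]
  refine Finset.sum_congr rfl fun j _ => ?_
  rw [smul_smul, ← sub_smul]
  congr 1
  have f1 : (∑ c ∈ R, if α i = c ∧ β j = c then (1 : ℚ) else 0) =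
      if α i ∈ R ∧ α i = β j then 1 else 0 := by
    by_cases h : α i ∈ R
    · rw [Finset.sum_eq_single (α i)]
      · by_cases h' : α i = β j
        · rw [if_pos ⟨rfl, h'.symm⟩, if_pos ⟨h, h'⟩]
        · rw [if_neg fun e => h' e.2.symm, if_neg fun e => h' e.2]
      · intro c _ hc
        rw [if_neg fun e => hc e.1.symm]
      · intro h'
        exact absurd h h'
    · rw [if_neg fun e => h e.1]
      refine Finset.sum_eq_zero fun c hc => ?_
      rw [if_neg]
      rintro ⟨e, -⟩
      exact h (e ▸ hc)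
  have f2 : (∑ c ∈ R, ∑ c' ∈ R, if α i = c ∧ β j = c' then (1 : ℚ) else 0) =
      if α i ∈ R ∧ β j ∈ R then 1 else 0 := by
    have h1 : ∀ c, (∑ c' ∈ R, if α i = c ∧ β j = c' then (1 : ℚ) else 0) =
        if α i = c ∧ β j ∈ R then 1 else 0 := by
      intro c
      by_cases h : α i = c ∧ β j ∈ R
      · rw [if_pos h, Finset.sum_eq_single (β j), if_pos ⟨h.1, rfl⟩]
        · intro c' _ hc'
          rw [if_neg fun e => hc' e.2.symm]
        · intro h'
          exact absurd h.2 h'
      · rw [if_neg h]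
        refine Finset.sum_eq_zero fun c' hc' => ?_
        rw [if_neg]
        rintro ⟨e1, e2⟩
        exact h ⟨e1, e2 ▸ hc'⟩
    simp only [h1]
    by_cases h : α i ∈ R ∧ β j ∈ R
    · rw [if_pos h, Finset.sum_eq_single (α i), if_pos ⟨rfl, h.2⟩]
      · intro c _ hc
        rw [if_neg fun e => hc e.1.symm]
      · intro h'
        exact absurd h.1 h'
    · rw [if_neg h]
      refine Finset.sum_eq_zero fun c hc => ?_
      rw [if_neg]
      rintro ⟨e1, e2⟩
      exact h ⟨e1 ▸ hc, e2⟩
  rw [f1, f2]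
  unfold mat
  by_cases h1 : α i ∈ R
  · by_cases h2 : β j ∈ R
    · by_cases h3 : α i = β j
      · simp [h2, h3]
      · simp [h1, h2, h3]
    · have h3 : α i ≠ β j := fun e => h2 (e ▸ h1)
      simp [h2, h3]
  · simp [h1]

end

section poly

variable {E : Type*} [Field E] {ι : Type*} [Fintype ι]

/-- A monic divisor of a product of different linear factors. -/
theorem eq_prod_filter [DecidableEq E] {a : ι → E} (ha : Function.Injective a) {G : E[X]}
    (hG : G.Monic) (hd : G ∣ ∏ i, (X - C (a i))) :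
    G = ∏ i with G.eval (a i) = 0, (X - C (a i)) := by
  classical
  have hne : (∏ i, (X - C (a i))) ≠ 0 := Finset.prod_ne_zero_iff.2 fun i _ => X_sub_C_ne_zero _
  have hs : (∏ i, (X - C (a i)) : E[X]).Splits :=
    Splits.prod fun i _ => Splits.X_sub_C _
  have hGs : G.Splits := hs.of_dvd hne hd
  have hroots : (∏ i, (X - C (a i)) : E[X]).roots = Finset.univ.val.map a := by
    rw [roots_prod _ _ hne]
    simp [Multiset.bind_singleton]
  have hnd : G.roots.Nodup := by
    refine Multiset.nodup_of_le (roots.le_of_dvd hne hd) ?_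
    rw [hroots]
    exact (Multiset.nodup_map_iff_of_injective ha).2 Finset.univ.nodup
  have h1 : G = (G.roots.map fun r => X - C r).prod := hGs.eq_prod_roots_of_monic hG
  have h2 : G.roots = (Finset.univ.filter fun i => G.eval (a i) = 0).val.map a := by
    refine Multiset.Nodup.ext hnd ?_ |>.2 fun r => ?_
    · exact (Multiset.nodup_map_iff_of_injective ha).2 (Finset.nodup _)
    · constructor
      · intro hr
        have h3 : r ∈ (∏ i, (X - C (a i)) : E[X]).roots := Multiset.mem_of_le (roots.le_of_dvd hne hd) hr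
        rw [hroots, Multiset.mem_map] at h3
        obtain ⟨i, _, rfl⟩ := h3
        rw [Multiset.mem_map]
        refine ⟨i, ?_, rfl⟩
        rw [Finset.mem_val, Finset.mem_filter]
        exact ⟨Finset.mem_univ _, (mem_roots hG.ne_zero).1 hr⟩
      · intro hr
        rw [Multiset.mem_map] at hr
        obtain ⟨i, hi, rfl⟩ := hr
        rw [Finset.mem_val, Finset.mem_filter] at hi
        exact (mem_roots hG.ne_zero).2 hi.2
  calc G = (G.roots.map fun r => X - C r).prod := h1
    _ = (((Finset.univ.filter fun i => G.eval (a i) = 0).val.map a).map fun r => X - C r).prod := by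
        rw [← h2]
    _ = ∏ i with G.eval (a i) = 0, (X - C (a i)) := by
        rw [Multiset.map_map]
        rfl

end poly

end Pool.Agent.Run7.h153.NS
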