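import Pool.Agent.N686.DI.Main
import Pool.Agent.Run7.h153.NS.Split
set_option autoImplicit false

/-!
The curve `λ P(x) Q(y) = 1` for arbitrary polynomials `P` and `Q`.
-/

namespace Pool.Agent.Run7.h153.NS

open scoped WithZero

open Polynomial

open Pool.Agent.TH826.MK

section Ring

variable {K : Type*} [Field K]

/-- The polynomial `λ P(x) Q(y) - 1` in the variables `x = X 0` and `y = X 1`. -/
noncomputable def eqn (lam : K) (P Q : K[X]) : MvPolynomial (Fin 2) K :=
  MvPolynomial.C lam * (aeval (MvPolynomial.X 0 : MvPolynomial (Fin 2) K) P *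
    aeval (MvPolynomial.X 1 : MvPolynomial (Fin 2) K) Q) - 1

/-- The coordinate ring of the curve `λ P(x) Q(y) = 1`. -/
def Crv (lam : K) (P Q : K[X]) : Type _ := MvPolynomial (Fin 2) K ⧸ Ideal.span {eqn lam P Q}

variable (lam : K) (P Q : K[X])

noncomputable instance : CommRing (Crv lam P Q) :=
  Ideal.Quotient.commRing (Ideal.span {eqn lam P Q})

/-- The polynomials in `x` and `y` as functions on the curve. -/
noncomputable def toC : MvPolynomial (Fin 2) K →+* Crv lam P Q :=
  Ideal.Quotient.mk (Ideal.span {eqn lam P Q})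

/-- The constants. -/
noncomputable def cc : K →+* Crv lam P Q := (toC lam P Q).comp MvPolynomial.C

/-- The function `G(x)`. -/
noncomputable def fx (G : K[X]) : Crv lam P Q := toC lam P Q (aeval (MvPolynomial.X 0) G)

/-- The function `G(y)`. -/
noncomputable def fy (G : K[X]) : Crv lam P Q := toC lam P Q (aeval (MvPolynomial.X 1) G)

theorem toC_eqn : toC lam P Q (eqn lam P Q) = 0 :=
  Ideal.Quotient.eq_zero_iff_mem.2 (Ideal.subset_span rfl)

theorem prod_eq_one : cc lam P Q lam * (fx lam P Q P * fy lam P Q Q) = 1 := by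
  have h := toC_eqn lam P Q
  unfold eqn at h
  rw [map_sub, map_mul, map_mul, map_one, sub_eq_zero] at h
  exact h

theorem fx_mul (G H : K[X]) : fx lam P Q (G * H) = fx lam P Q G * fx lam P Q H := by
  unfold fx
  rw [map_mul, map_mul]

theorem fy_mul (G H : K[X]) : fy lam P Q (G * H) = fy lam P Q G * fy lam P Q H := by
  unfold fy
  rw [map_mul, map_mul]

theorem isUnit_fx {G : K[X]} (h : G ∣ P) : IsUnit (fx lam P Q G) := by
  obtain ⟨H, rfl⟩ := h
  refine isUnit_of_dvd_one ?_
  rw [← prod_eq_one lam (G * H) Q, fx_mul]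
  exact Dvd.dvd.mul_left (Dvd.dvd.mul_right (Dvd.intro _ rfl) _) _

theorem isUnit_fy {G : K[X]} (h : G ∣ Q) : IsUnit (fy lam P Q G) := by
  obtain ⟨H, rfl⟩ := h
  refine isUnit_of_dvd_one ?_
  rw [← prod_eq_one lam P (G * H), fy_mul]
  exact Dvd.dvd.mul_left (Dvd.dvd.mul_left (Dvd.intro _ rfl) _) _

end Ring

section Map

variable {K E : Type*} [Field K] [Field E] (σ : K →+* E)

theorem map_aeval (i : Fin 2) (G : K[X]) : MvPolynomial.map σ
    (aeval (MvPolynomial.X i : MvPolynomial (Fin 2) K) G) =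
      aeval (MvPolynomial.X i : MvPolynomial (Fin 2) E) (G.map σ) := by
  rw [aeval_def, aeval_def, hom_eval₂, eval₂_map, MvPolynomial.map_X]
  congr 1
  ext x
  simp [MvPolynomial.algebraMap_eq]

theorem map_eqn (lam : K) (P Q : K[X]) :
    MvPolynomial.map σ (eqn lam P Q) = eqn (σ lam) (P.map σ) (Q.map σ) := by
  unfold eqn
  rw [map_sub, map_mul, map_mul, map_one, map_aeval, map_aeval, MvPolynomial.map_C]

/-- The base change of the coordinate ring. -/
noncomputable def bc (lam : K) (P Q : K[X]) :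
    Crv lam P Q →+* Crv (σ lam) (P.map σ) (Q.map σ) :=
  Ideal.quotientMap (Ideal.span {eqn (σ lam) (P.map σ) (Q.map σ)}) (MvPolynomial.map σ) (by
    rw [Ideal.span_le]
    rintro _ rfl
    show MvPolynomial.map σ (eqn lam P Q) ∈ Ideal.span {eqn (σ lam) (P.map σ) (Q.map σ)}
    rw [map_eqn]
    exact Ideal.subset_span rfl)

theorem bc_toC (lam : K) (P Q : K[X]) (g : MvPolynomial (Fin 2) K) :
    bc σ lam P Q (toC lam P Q g) = toC (σ lam) (P.map σ) (Q.map σ) (MvPolynomial.map σ g) :=
  Ideal.quotientMap_mk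

theorem bc_fx (lam : K) (P Q G : K[X]) :
    bc σ lam P Q (fx lam P Q G) = fx (σ lam) (P.map σ) (Q.map σ) (G.map σ) := by
  unfold fx
  rw [bc_toC, map_aeval]

theorem bc_fy (lam : K) (P Q G : K[X]) :
    bc σ lam P Q (fy lam P Q G) = fy (σ lam) (P.map σ) (Q.map σ) (G.map σ) := by
  unfold fy
  rw [bc_toC, map_aeval]

end Map

section Split

variable {E : Type*} [Field E] {r : Fin 2 → ℕ} (lam : E) (a : ∀ k, Fin (r k + 1) → E)

/-- the polynomial with the roots `a_i` -/
noncomputable def pl {n : ℕ} (b : Fin n → E) : E[X] := ∏ i, (X - C (b i))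

theorem monic_pl {n : ℕ} (b : Fin n → E) : (pl b).Monic :=
  monic_prod_of_monic _ _ fun i _ => monic_X_sub_C _

theorem aeval_pl {n : ℕ} (b : Fin n → E) (k : Fin 2) :
    aeval (MvPolynomial.X k : MvPolynomial (Fin 2) E) (pl b) =
      ∏ i, (MvPolynomial.X k - MvPolynomial.C (b i)) := by
  unfold pl
  rw [map_prod]
  refine Finset.prod_congr rfl fun i _ => ?_
  simp [MvPolynomial.algebraMap_eq]

theorem eqn_eq : eqn lam (pl (a 0)) (pl (a 1)) = Pool.Agent.TH826.MH.eqn lam a := by
  unfold eqn Pool.Agent.TH826.MH.eqn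
  rw [aeval_pl, aeval_pl, Fin.prod_univ_two]

theorem irreducible_split [Infinite E] (hl : lam ≠ 0) (ha : ∀ k, Function.Injective (a k)) :
    Irreducible (eqn lam (pl (a 0)) (pl (a 1))) := by
  rw [eqn_eq]
  exact Pool.Agent.TH826.MH.irreducible_eqn (m := 0) lam a hl ha

/-- The map to the coordinate ring of the library. -/
noncomputable def psi : Crv lam (pl (a 0)) (pl (a 1)) →+* Pool.Agent.TH826.MH.CRing lam a :=
  Ideal.Quotient.lift (Ideal.span {eqn lam (pl (a 0)) (pl (a 1))})
    (Pool.Agent.TH826.MH.fpol lam a) (by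
      intro x hx
      have h : Ideal.span {eqn lam (pl (a 0)) (pl (a 1))} ≤
          RingHom.ker (Pool.Agent.TH826.MH.fpol lam a) := by
        rw [Ideal.span_le]
        rintro _ rfl
        show Pool.Agent.TH826.MH.fpol lam a _ = 0
        rw [eqn_eq]
        exact Pool.Agent.TH826.MH.fpol_eqn lam a
      exact h hx)

theorem psi_toC (g : MvPolynomial (Fin 2) E) :
    psi lam a (toC lam _ _ g) = Pool.Agent.TH826.MH.fpol lam a g :=
  Ideal.Quotient.lift_mk _ _ _

end Split

section Domain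

variable {K E : Type*} [Field K] [Field E] (σ : K →+* E)

theorem isUnit_of_map {n : ℕ} {g : MvPolynomial (Fin n) K} (h : IsUnit (MvPolynomial.map σ g)) :
    IsUnit g := by
  rw [MvPolynomial.isUnit_iff_eq_C_of_isReduced] at h ⊢
  obtain ⟨u, hu, he⟩ := h
  have h0 : g = MvPolynomial.C (g.coeff 0) := by
    ext m
    have h1 := congrArg (MvPolynomial.coeff m) he
    rw [MvPolynomial.coeff_map, MvPolynomial.coeff_C] at h1
    rw [MvPolynomial.coeff_C]
    by_cases hm : 0 = m
    · subst hm
      rw [if_pos rfl]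
    · rw [if_neg hm] at h1 ⊢
      exact (map_eq_zero σ).1 h1
  refine ⟨g.coeff 0, ?_, h0⟩
  rw [isUnit_iff_ne_zero]
  intro hz
  have h1 := congrArg (MvPolynomial.coeff 0) he
  rw [MvPolynomial.coeff_map, MvPolynomial.coeff_C, if_pos rfl, hz, map_zero] at h1
  rw [← h1] at hu
  exact not_isUnit_zero hu

theorem irreducible_of_map {n : ℕ} {g : MvPolynomial (Fin n) K}
    (h : Irreducible (MvPolynomial.map σ g)) : Irreducible g := by
  refine ⟨fun hu => h.not_isUnit (hu.map _), fun p q hpq => ?_⟩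
  rw [hpq, map_mul] at h
  rcases h.isUnit_or_isUnit rfl with h1 | h1
  · exact Or.inl (isUnit_of_map σ h1)
  · exact Or.inr (isUnit_of_map σ h1)

theorem isDomain_of_irreducible {lam : K} {P Q : K[X]} (h : Irreducible (eqn lam P Q)) :
    IsDomain (Crv lam P Q) := by
  have hp : (Ideal.span {eqn lam P Q}).IsPrime :=
    (Ideal.span_singleton_prime h.ne_zero).2 h.prime
  exact Ideal.Quotient.isDomain _

end Domain

end Pool.Agent.Run7.h153.NS
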